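import Pool.Agent.MP_be5fd0_gt.H22.Sph

/-! The spectral gap of the curl operator on the three-sphere. -/

namespace Pool.Agent.MP_be5fd0_gt.H22

open Set Filter Topology Metric MeasureTheory
open scoped ContDiff

noncomputable section

/-- the algebra of smooth functions -/
def A : Subalgebra ℝ (H → ℝ) where
  carrier := {u | Sm u}
  mul_mem' := fun {u v} (hu : Sm u) (hv : Sm v) => show Sm (u * v) from hu.mul hv
  add_mem' := fun {u v} (hu : Sm u) (hv : Sm v) => show Sm (u + v) from hu.add hv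
  algebraMap_mem' := fun c => show Sm (fun _ => c) from contDiff_const

theorem sm (u : A) : Sm u.1 := u.2

theorem ct (u : A) : Continuous u.1 := (sm u).continuous

theorem two_ap (x : H) : (2 : A).1 x = 2 := rfl

/-- invariant derivatives -/
def XA (a : H) : A →ₗ[ℝ] A where
  toFun u := ⟨X a u.1, (sm u).X a⟩
  map_add' u v := Subtype.ext (funext (X_add (sm u) (sm v) a))
  map_smul' c u := Subtype.ext (funext (X_cmul c (sm u) a))

/-- the invariant frame -/
def ZA (i : Fin 3) : A →ₗ[ℝ] A := XA (q i)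

/-- the mean -/
def J : A →ₗ[ℝ] ℝ where
  toFun u := I u.1
  map_add' u v := I_add (ct u) (ct v)
  map_smul' c u := I_mul c u.1

theorem XA_mul (a : H) (u v : A) : XA a (u * v) = XA a u * v + u * XA a v :=
  Subtype.ext (funext (X_mul (sm u) (sm v) a))

theorem XA_one (a : H) : XA a 1 = 0 := Subtype.ext (funext (X_const 1 a))

theorem ZA_mul (i : Fin 3) (u v : A) : ZA i (u * v) = ZA i u * v + u * ZA i v := XA_mul _ u v

theorem ZA_one (i : Fin 3) : ZA i 1 = 0 := XA_one _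

theorem map_two {M : Type} [AddCommGroup M] [Module ℝ M] (L : A →ₗ[ℝ] M) (u : A) :
    L (2 * u) = L u + L u := by rw [two_mul, map_add]

theorem c01 (u : A) : ZA 0 (ZA 1 u) = ZA 1 (ZA 0 u) - 2 * ZA 2 u :=
  Subtype.ext (funext (Z01 (sm u)))

theorem c12 (u : A) : ZA 1 (ZA 2 u) = ZA 2 (ZA 1 u) - 2 * ZA 0 u :=
  Subtype.ext (funext (Z12 (sm u)))

theorem c02 (u : A) : ZA 0 (ZA 2 u) = ZA 2 (ZA 0 u) + 2 * ZA 1 u := by
  have : ZA 2 (ZA 0 u) = ZA 0 (ZA 2 u) - 2 * ZA 1 u := Subtype.ext (funext (Z20 (sm u)))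
  rw [this]; ring

theorem J_Z (i : Fin 3) (u : A) : J (ZA i u) = 0 := I_Z (sm u) i

theorem J_one : J 1 = 1 := I_const 1

theorem J_sq (u : A) : 0 ≤ J (u * u) := I_nonneg fun x => mul_self_nonneg (u.1 x)

theorem J_ibp (i : Fin 3) (u v : A) : J (ZA i u * v) = -J (u * ZA i v) := by
  have := J_Z i (u * v)
  rw [ZA_mul, map_add] at this
  linarith

theorem J_var (u : A) : J u ^ 2 ≤ J (u * u) := by
  have h := J_sq (u - J u • 1)
  simp only [sub_mul, mul_sub, smul_mul_assoc, mul_smul_comm, map_sub, map_smul, mul_one, one_mul,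
    J_one, smul_eq_mul] at h
  nlinarith

/-- triples of smooth functions -/
abbrev A3 := Fin 3 → A

/-- the curl operator -/
def D : A3 →ₗ[ℝ] A3 where
  toFun f := ![ZA 1 (f 2) - ZA 2 (f 1) + 2 * f 0, ZA 2 (f 0) - ZA 0 (f 2) + 2 * f 1,
    ZA 0 (f 1) - ZA 1 (f 0) + 2 * f 2]
  map_add' f g := by
    funext i
    fin_cases i <;> simp <;> ring
  map_smul' c f := by
    funext i
    fin_cases i <;> simp [smul_add, smul_sub]

theorem D0 (f : A3) : D f 0 = ZA 1 (f 2) - ZA 2 (f 1) + 2 * f 0 := rfl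
theorem D1 (f : A3) : D f 1 = ZA 2 (f 0) - ZA 0 (f 2) + 2 * f 1 := rfl
theorem D2 (f : A3) : D f 2 = ZA 0 (f 1) - ZA 1 (f 0) + 2 * f 2 := rfl

/-- pointwise scalar product -/
def dot (f g : A3) : A := f 0 * g 0 + f 1 * g 1 + f 2 * g 2

/-- the scalar product -/
def B : A3 →ₗ[ℝ] A3 →ₗ[ℝ] ℝ :=
  LinearMap.mk₂ ℝ (fun f g => J (dot f g))
    (fun f f' g => by rw [← map_add]; congr 1; simp only [dot, Pi.add_apply]; ring)
    (fun c f g => by rw [← map_smul]; congr 1; simp [dot])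
    (fun f g g' => by rw [← map_add]; congr 1; simp only [dot, Pi.add_apply]; ring)
    (fun c f g => by rw [← map_smul]; congr 1; simp [dot])

theorem B_ap (f g : A3) : B f g = J (dot f g) := rfl

theorem B_eq (f g : A3) : B f g = J (f 0 * g 0) + J (f 1 * g 1) + J (f 2 * g 2) := by
  rw [B_ap, dot, map_add, map_add]

theorem B_comm (f g : A3) : B f g = B g f := by
  rw [B_ap, B_ap]; congr 1; unfold dot; ring

theorem B_sq (f : A3) : 0 ≤ B f f := by
  rw [B_eq]
  exact add_nonneg (add_nonneg (J_sq _) (J_sq _)) (J_sq _)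

/-- gradient -/
def gr (u : A) : A3 := fun i => ZA i u

/-- divergence -/
def dv (f : A3) : A := ZA 0 (f 0) + ZA 1 (f 1) + ZA 2 (f 2)

theorem J_dv (f : A3) : J (dv f) = 0 := by simp [dv, J_Z]

theorem B_gr (f : A3) (u : A) : B f (gr u) = -J (dv f * u) := by
  simp only [B_ap, dot, dv, gr, add_mul, map_add, J_ibp]; ring

theorem D_gr (u : A) : D (gr u) = 0 := by
  funext i
  fin_cases i
  · show ZA 1 (ZA 2 u) - ZA 2 (ZA 1 u) + 2 * ZA 0 u = 0
    rw [c12]; ring
  · show ZA 2 (ZA 0 u) - ZA 0 (ZA 2 u) + 2 * ZA 1 u = 0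
    rw [c02]; ring
  · show ZA 0 (ZA 1 u) - ZA 1 (ZA 0 u) + 2 * ZA 2 u = 0
    rw [c01]; ring

theorem dv_D (f : A3) : dv (D f) = 0 := by
  simp only [dv, D0, D1, D2, map_add, map_sub, map_two, c01, c12, c02]; ring

theorem D_symm (f g : A3) : B (D f) g = B f (D g) := by
  simp only [B_ap, dot, D0, D1, D2, add_mul, sub_mul, mul_add, mul_sub, map_add, map_sub, J_ibp,
    mul_assoc, mul_left_comm _ (2 : A)]
  ring

theorem weitz (f : A3) : B (gr (f 0)) (gr (f 0)) + B (gr (f 1)) (gr (f 1)) +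
    B (gr (f 2)) (gr (f 2)) = B (D f) (D f) - 2 * B (D f) f + J (dv f * dv f) := by
  have h := J_dv fun i => dot f (gr (f i)) - f i * dv f
  have e : dv (fun i => dot f (gr (f i)) - f i * dv f) = dot (gr (f 0)) (gr (f 0)) +
      dot (gr (f 1)) (gr (f 1)) + dot (gr (f 2)) (gr (f 2)) -
      (dot (D f) (D f) - 2 * dot (D f) f + dv f * dv f) := by
    simp only [dv, dot, gr, D0, D1, D2, map_add, map_sub, ZA_mul, c01, c12, c02]; ring
  rw [e] at h
  simp only [map_add, map_sub, map_two] at h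
  simp only [B_ap]
  linarith

theorem lich (u : A) : 3 * B (gr u) (gr u) ≤ J (dv (gr u) * dv (gr u)) := by
  have h := weitz (gr u)
  simp only [D_gr, map_zero, LinearMap.zero_apply, B_ap (gr _), ← map_add] at h
  set a := fun i j => ZA i (ZA j u) with ha
  have e : 2 * (dot (gr (gr u 0)) (gr (gr u 0)) + dot (gr (gr u 1)) (gr (gr u 1)) +
      dot (gr (gr u 2)) (gr (gr u 2))) + 2 * (2 * (dot (gr (gr u 0)) (gr (gr u 0)) +
      dot (gr (gr u 1)) (gr (gr u 1)) + dot (gr (gr u 2)) (gr (gr u 2)))) =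
      2 * (dv (gr u) * dv (gr u)) + 2 * (2 * (dot (gr u) (gr u) + 2 * dot (gr u) (gr u))) +
      2 * dot ![a 0 0 - a 1 1, a 1 1 - a 2 2, a 0 0 - a 2 2]
        ![a 0 0 - a 1 1, a 1 1 - a 2 2, a 0 0 - a 2 2] +
      (dot ![a 0 1 + a 1 0, a 1 2 + a 2 1, a 0 2 + a 2 0]
        ![a 0 1 + a 1 0, a 1 2 + a 2 1, a 0 2 + a 2 0] +
      2 * dot ![a 0 1 + a 1 0, a 1 2 + a 2 1, a 0 2 + a 2 0]
        ![a 0 1 + a 1 0, a 1 2 + a 2 1, a 0 2 + a 2 0]) := by
    simp only [ha, dv, dot, gr, c01, c12, c02, Matrix.cons_val_zero, Matrix.cons_val_one,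
      Matrix.cons_val]
    ring
  have h1 := congrArg J e
  have h2 := B_sq ![a 0 0 - a 1 1, a 1 1 - a 2 2, a 0 0 - a 2 2]
  have h3 := B_sq ![a 0 1 + a 1 0, a 1 2 + a 2 1, a 0 2 + a 2 0]
  simp only [map_add, map_two] at h h1
  rw [B_ap] at h2 h3 ⊢
  linarith

/-- functions vanishing on the sphere -/
def Nl : Submodule ℝ A where
  carrier := {u | ∀ x, ‖x‖ = 1 → u.1 x = 0}
  add_mem' := fun {u v} hu hv x hx => by
    show u.1 x + v.1 x = 0
    rw [hu x hx, hv x hx, add_zero]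
  zero_mem' := fun _ _ => rfl
  smul_mem' := fun c u hu x hx => by
    show c * u.1 x = 0
    rw [hu x hx, mul_zero]

theorem J_Nl {u : A} (h : u ∈ Nl) (v : A) : J (u * v) = 0 :=
  (I_congr (v := fun _ => 0) fun x hx => by
    show u.1 x * v.1 x = 0
    rw [h x hx, zero_mul]).trans (I_const 0)

theorem Nl_of {u : A} (h : J (u * u) = 0) : u ∈ Nl := fun _ hx =>
  mul_self_eq_zero.1 (I_eq_zero (ct (u * u)) (fun x => mul_self_nonneg (u.1 x)) h hx)

theorem surj_mod {V : Type} [AddCommGroup V] [Module ℝ V] [FiniteDimensional ℝ V]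
    (N : Submodule ℝ V) (T : V →ₗ[ℝ] V) (h : ∀ v, T v ∈ N → v ∈ N) (u : V) :
    ∃ v, T v - u ∈ N := by
  have h1 := (N.mkQ.comp T).finrank_range_add_finrank_ker
  have h2 : LinearMap.ker (N.mkQ.comp T) ≤ N := fun v hv =>
    h v ((Submodule.Quotient.mk_eq_zero N).1 hv)
  have h3 := Submodule.finrank_mono h2
  have h4 := N.finrank_quotient_add_finrank
  have h5 := (LinearMap.range (N.mkQ.comp T)).finrank_le
  have h6 := Submodule.eq_top_of_finrank_eq (S := LinearMap.range (N.mkQ.comp T)) (by omega)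
  obtain ⟨v, hv⟩ := LinearMap.range_eq_top.1 h6 (N.mkQ u)
  exact ⟨v, (Submodule.Quotient.eq N).1 hv⟩

section Fin

variable {V : Submodule ℝ A} (hV : V.FG) (h1 : 1 ∈ V) (hZ : ∀ i, ∀ u ∈ V, ZA i u ∈ V)
include hV h1 hZ

theorem solve {u : A} (hu : u ∈ V) (h0 : J u = 0) : ∃ v ∈ V, dv (gr v) - u ∈ Nl := by
  have : FiniteDimensional ℝ V := (Submodule.fg_iff_finiteDimensional V).1 hV
  let T : A →ₗ[ℝ] A := (ZA 0).comp (ZA 0) + (ZA 1).comp (ZA 1) + (ZA 2).comp (ZA 2) -
    J.smulRight 1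
  have hT : ∀ v, T v = dv (gr v) - J v • 1 := fun v => rfl
  have hm : ∀ v ∈ V, T v ∈ V := fun v hv =>
    V.sub_mem (V.add_mem (V.add_mem (hZ _ _ (hZ _ _ hv)) (hZ _ _ (hZ _ _ hv))) (hZ _ _ (hZ _ _ hv)))
      (V.smul_mem _ h1)
  obtain ⟨v, hv⟩ := surj_mod (V := V) (Nl.comap V.subtype) (T.restrict hm) (fun v hv => by
    have h2 : J (T v.1 * v.1) = 0 := J_Nl hv v.1
    rw [hT, sub_mul, map_sub, smul_mul_assoc, one_mul, map_smul, smul_eq_mul] at h2
    have h3 := B_gr (gr v.1) v.1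
    have h4 := B_sq (gr v.1)
    have h5 : J v.1 = 0 := by nlinarith [mul_self_nonneg (J v.1)]
    have h6 : B (gr v.1) (gr v.1) = 0 := by rw [h5] at h2; linarith
    rw [B_eq] at h6
    have s0 := J_sq (gr v.1 0)
    have s1 := J_sq (gr v.1 1)
    have s2 := J_sq (gr v.1 2)
    have h7 : ∀ x, ‖x‖ = 1 → v.1.1 x = v.1.1 1 := fun x hx =>
      const_of_Z (sm v.1) (fun i => by
        fin_cases i
        · exact Nl_of (u := gr v.1 0) (by linarith)
        · exact Nl_of (u := gr v.1 1) (by linarith)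
        · exact Nl_of (u := gr v.1 2) (by linarith)) hx
    have h8 : v.1.1 1 = 0 := (I_const _).symm.trans ((I_congr h7).symm.trans h5)
    exact fun x hx => (h7 x hx).trans h8) ⟨u, hu⟩
  have h2 : T v.1 - u ∈ Nl := hv
  have h3 := J_Nl h2 1
  rw [mul_one, hT, map_sub, map_sub, J_dv, h0, map_smul, J_one] at h3
  have h4 : J v.1 = 0 := by simpa using h3
  rw [hT, h4, zero_smul, sub_zero] at h2
  exact ⟨v.1, v.2, h2⟩

theorem poinc {u : A} (hu : u ∈ V) : 3 * (J (u * u) - J u ^ 2) ≤ B (gr u) (gr u) := by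
  obtain ⟨v, -, hv⟩ := solve hV h1 hZ (u := u - J u • 1) (V.sub_mem hu (V.smul_mem _ h1))
    (by simp [J_one])
  have e1 := J_Nl hv u
  have e2 := J_Nl hv (dv (gr v))
  have e3 := B_gr (gr v) u
  have e4 := lich v
  have e5 := B_sq (gr u + (3 : ℝ) • gr v)
  have e6 := B_comm (gr u) (gr v)
  simp only [sub_mul, map_sub, smul_mul_assoc, map_smul, one_mul, smul_eq_mul, J_dv,
    mul_comm u (dv (gr v))] at e1 e2
  simp only [map_add, map_smul, LinearMap.add_apply, LinearMap.smul_apply, smul_eq_mul] at e5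
  nlinarith

theorem base_fin {f : A3} (hf : ∀ i, f i ∈ V) :
    0 ≤ B (D f) (D f) - 3 * B (D f) f + 2 * (J (f 0) ^ 2 + J (f 1) ^ 2 + J (f 2) ^ 2) := by
  obtain ⟨v, hv, hv'⟩ := solve hV h1 hZ (u := dv f)
    (V.add_mem (V.add_mem (hZ _ _ (hf _)) (hZ _ _ (hf _))) (hZ _ _ (hf _))) (J_dv f)
  set g := f - gr v with hg
  have e0 : D g = D f := by rw [hg, map_sub, D_gr, sub_zero]
  have e1 : dv g * dv g = (dv (gr v) - dv f) * (dv (gr v) - dv f) := by
    simp only [hg, dv, Pi.sub_apply, map_sub]; ring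
  have e2 : J (dv g * dv g) = 0 := by rw [e1]; exact J_Nl hv' _
  have e3 : B (D f) g = B (D f) f := by rw [hg, map_sub, B_gr, dv_D]; simp
  have e4 : ∀ i, J (g i) = J (f i) := fun i => by simp [hg, gr, J_Z]
  have p := fun i => poinc hV h1 hZ (u := g i) (V.sub_mem (hf i) (hZ _ _ hv))
  have w := weitz g
  have b := fun i => J_var ((D g - (3 : ℝ) • g) i)
  have m0 : J ((D g - (3 : ℝ) • g) 0) = -J (f 0) := by simp [D0, J_Z, map_two, e4]; ring
  have m1 : J ((D g - (3 : ℝ) • g) 1) = -J (f 1) := by simp [D1, J_Z, map_two, e4]; ring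
  have m2 : J ((D g - (3 : ℝ) • g) 2) = -J (f 2) := by simp [D2, J_Z, map_two, e4]; ring
  have b0 := b 0
  have b1 := b 1
  have b2 := b 2
  have s := B_eq (D g - (3 : ℝ) • g) (D g - (3 : ℝ) • g)
  have n := B_eq g g
  have p0 := p 0
  have p1 := p 1
  have p2 := p 2
  rw [m0] at b0
  rw [m1] at b1
  rw [m2] at b2
  rw [e4] at p0 p1 p2
  have s' : B (D g - (3 : ℝ) • g) (D g - (3 : ℝ) • g) =
      B (D g) (D g) - 6 * B (D g) g + 9 * B g g := by
    simp only [map_sub, map_smul, LinearMap.sub_apply, LinearMap.smul_apply, smul_eq_mul,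
      B_comm g (D g)]
    ring
  rw [e0] at w s'
  rw [e3] at w s'
  rw [e0] at s b0 b1 b2
  nlinarith

end Fin

/-- coordinates -/
def co0 : H →L[ℝ] ℝ := ⟨QuaternionAlgebra.reₗ _ _ _, Quaternion.continuous_re⟩
/-- coordinates -/
def co1 : H →L[ℝ] ℝ := ⟨QuaternionAlgebra.imIₗ _ _ _, Quaternion.continuous_imI⟩
/-- coordinates -/
def co2 : H →L[ℝ] ℝ := ⟨QuaternionAlgebra.imJₗ _ _ _, Quaternion.continuous_imJ⟩
/-- coordinates -/
def co3 : H →L[ℝ] ℝ := ⟨QuaternionAlgebra.imKₗ _ _ _, Quaternion.continuous_imK⟩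

@[simp] theorem co0_ap (x : H) : co0 x = x.re := rfl
@[simp] theorem co1_ap (x : H) : co1 x = x.imI := rfl
@[simp] theorem co2_ap (x : H) : co2 x = x.imJ := rfl
@[simp] theorem co3_ap (x : H) : co3 x = x.imK := rfl

/-- linear functions -/
def lin : (H →L[ℝ] ℝ) →ₗ[ℝ] A where
  toFun L := ⟨L, show Sm L from L.contDiff⟩
  map_add' _ _ := rfl
  map_smul' _ _ := rfl

theorem XA_lin (a : H) (L : H →L[ℝ] ℝ) :
    XA a (lin L) = lin (L.comp (ContinuousLinearMap.mul ℝ H a)) :=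
  Subtype.ext (funext (X_clm L a))

/-- affine functions -/
def P1 : Submodule ℝ A := LinearMap.range ((LinearMap.toSpanSingleton ℝ A 1).coprod lin)

theorem one_P1 : 1 ∈ P1 := ⟨(1, 0), by simp⟩

theorem lin_P1 (L : H →L[ℝ] ℝ) : lin L ∈ P1 := ⟨(0, L), by simp⟩

theorem fg_P1 : P1.FG := by
  rw [P1, LinearMap.range_eq_map]
  exact Module.Finite.fg_top.map _

theorem one_P (n : ℕ) : 1 ∈ P1 ^ n := by simpa using Submodule.pow_mem_pow P1 one_P1 n

theorem Z_P (n : ℕ) (i : Fin 3) : ∀ u ∈ P1 ^ n, ZA i u ∈ P1 ^ n := by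
  induction n with
  | zero =>
    intro u hu
    rw [pow_zero, Submodule.mem_one] at hu
    obtain ⟨c, rfl⟩ := hu
    rw [Algebra.algebraMap_eq_smul_one, map_smul, ZA_one, smul_zero]
    exact zero_mem _
  | succ n ih =>
    intro u hu
    rw [pow_succ] at hu ⊢
    refine Submodule.mul_induction_on hu (fun v hv w hw => ?_) fun v w hv hw => ?_
    · rw [ZA_mul]
      refine add_mem (Submodule.mul_mem_mul (ih v hv) hw) (Submodule.mul_mem_mul hv ?_)
      obtain ⟨p, rfl⟩ := hw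
      simp only [LinearMap.coprod_apply, LinearMap.toSpanSingleton_apply, map_add, map_smul, ZA,
        XA_one, XA_lin, smul_zero, zero_add]
      exact lin_P1 _
    · rw [map_add]
      exact add_mem hv hw

/-- the Euclidean scalar product -/
def ip (x y : H) : ℝ := co0 x * co0 y + co1 x * co1 y + co2 x * co2 y + co3 x * co3 y

theorem nsq {x : H} (h : ‖x‖ = 1) : x.re ^ 2 + x.imI ^ 2 + x.imJ ^ 2 + x.imK ^ 2 = 1 := by
  rw [← Quaternion.normSq_def', Quaternion.normSq_eq_norm_mul_self, h, one_mul]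

theorem ip_mul {g : H} (h : ‖g‖ = 1) (x y : H) : ip (g * x) (g * y) = ip x y := by
  simp [ip]
  linear_combination (x.re * y.re + x.imI * y.imI + x.imJ * y.imJ + x.imK * y.imK) * nsq h

theorem ip_ge {x y : H} (hx : ‖x‖ = 1) (hy : ‖y‖ = 1) : 0 ≤ 1 + ip x y := by
  simp only [ip, co0_ap, co1_ap, co2_ap, co3_ap]
  nlinarith [nsq hx, nsq hy, sq_nonneg (x.re + y.re), sq_nonneg (x.imI + y.imI),
    sq_nonneg (x.imJ + y.imJ), sq_nonneg (x.imK + y.imK)]

theorem ip_self {x : H} (hx : ‖x‖ = 1) : ip x x = 1 := by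
  simp only [ip, co0_ap, co1_ap, co2_ap, co3_ap]
  linarith [nsq hx]

theorem ip_lt {x y : H} (hx : ‖x‖ = 1) (hy : ‖y‖ = 1) (h : y ≠ x) : ip x y < 1 := by
  have h1 : 0 < Quaternion.normSq (y - x) :=
    lt_of_le_of_ne Quaternion.normSq_nonneg fun h0 =>
      h (sub_eq_zero.1 (Quaternion.normSq_eq_zero.1 h0.symm))
  rw [Quaternion.normSq_def'] at h1
  simp only [ip, co0_ap, co1_ap, co2_ap, co3_ap]
  simp at h1
  nlinarith [nsq hx, nsq hy]

theorem smooth_I {Γ : H → H → ℝ} (h : ContDiff ℝ ∞ fun p : H × H => Γ p.1 p.2) :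
    Sm fun x => I fun y => Γ y x := by
  have := param_smooth (ν := μS) (K := univ) (κ := fun x : S3 => (x : H)) isCompact_univ
    continuous_subtype_val h
  simp only [Measure.restrict_univ] at this
  exact this

/-- the scalar product with a vector -/
def ipA (x : H) : A := x.re • lin co0 + x.imI • lin co1 + x.imJ • lin co2 + x.imK • lin co3

/-- polynomial kernels -/
def T (n : ℕ) : A →ₗ[ℝ] A where
  toFun u := ⟨fun x => J ((1 + ipA x) ^ n * u),
    smooth_I (Γ := fun y x => (1 + ip x y) ^ n * u.1 y) (by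
      have := sm u
      unfold ip
      fun_prop)⟩
  map_add' u v := Subtype.ext (funext fun x => by
    show J _ = J _ + J _
    rw [mul_add, map_add])
  map_smul' c u := Subtype.ext (funext fun x => by
    show J _ = c * J _
    rw [mul_smul_comm, map_smul, smul_eq_mul])

theorem T_ap (n : ℕ) (u : A) (x : H) : (T n u).1 x = I fun y => (1 + ip x y) ^ n * u.1 y := rfl

theorem T_mem (n : ℕ) : ∀ u, T n u ∈ P1 ^ n := by
  induction n with
  | zero =>
    intro u
    have : T 0 u = J u • 1 := Subtype.ext (funext fun x => by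
      show J _ = J u * 1
      rw [pow_zero, one_mul, mul_one])
    rw [this]
    exact Submodule.smul_mem _ _ (one_P 0)
  | succ n ih =>
    intro u
    have : T (n + 1) u = T n u * 1 + T n (lin co0 * u) * lin co0 + T n (lin co1 * u) * lin co1 +
        T n (lin co2 * u) * lin co2 + T n (lin co3 * u) * lin co3 := Subtype.ext (funext fun x => by
      show J _ = J _ * 1 + J _ * x.re + J _ * x.imI + J _ * x.imJ + J _ * x.imK
      have e : (1 + ipA x) ^ (n + 1) * u = (1 + ipA x) ^ n * u +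
          x.re • ((1 + ipA x) ^ n * (lin co0 * u)) + x.imI • ((1 + ipA x) ^ n * (lin co1 * u)) +
          x.imJ • ((1 + ipA x) ^ n * (lin co2 * u)) + x.imK • ((1 + ipA x) ^ n * (lin co3 * u)) := by
        rw [pow_succ]
        generalize (1 + ipA x) ^ n = k
        simp only [ipA, Algebra.smul_def]
        ring
      rw [e]
      simp only [map_add, map_smul, smul_eq_mul]
      ring)
    rw [this, pow_succ]
    exact add_mem (add_mem (add_mem (add_mem (Submodule.mul_mem_mul (ih _) one_P1)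
      (Submodule.mul_mem_mul (ih _) (lin_P1 _))) (Submodule.mul_mem_mul (ih _) (lin_P1 _)))
      (Submodule.mul_mem_mul (ih _) (lin_P1 _))) (Submodule.mul_mem_mul (ih _) (lin_P1 _))

theorem Z_T (n : ℕ) (i : Fin 3) (u : A) : ZA i (T n u) = T n (ZA i u) :=
  Subtype.ext (funext fun x => by
    have h1 := hasDerivAt_ex (q_re i) (norm_q i) (sm (T n u)) x 0
    have h2 : (fun s => (T n u).1 (ex (q i) s * x)) =
        fun s => I fun y => (1 + ip x y) ^ n * u.1 (ex (q i) s * y) := funext fun s => by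
      have hg := norm_ex (q_re i) (norm_q i) s
      rw [T_ap, ← I_left _ hg]
      simp only [ip_mul hg]
    have h3 := hasDerivAt_I (Γ := fun y s => (1 + ip x y) ^ n * u.1 (ex (q i) s * y)) (by
      have := sm u
      unfold ip ex
      fun_prop) 0
    rw [h2, ex_zero, one_mul] at h1
    refine (h1.unique h3).trans ?_
    rw [T_ap]
    congr 1
    funext y
    rw [((hasDerivAt_ex (q_re i) (norm_q i) (sm u) y 0).const_mul _).deriv, ex_zero, one_mul]
    rfl)

/-- normalised kernels -/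
def S (n : ℕ) : A →ₗ[ℝ] A := (I fun y => (1 + ip 1 y) ^ n)⁻¹ • T n

theorem S_ap (n : ℕ) (u : A) {x : H} (hx : ‖x‖ = 1) : (S n u).1 x =
    (I fun y => (1 + ip x y) ^ n)⁻¹ * I fun y => (1 + ip x y) ^ n * u.1 y := by
  rw [← I_left (fun y => (1 + ip x y) ^ n) hx]
  have : ∀ y, ip x (x * y) = ip 1 y := fun y => by rw [← ip_mul hx 1 y, mul_one]
  simp only [this]
  rfl

theorem ct_ip (x : H) : Continuous (ip x) := by unfold ip; fun_prop

theorem S_lim (u : A) {x : H} (hx : ‖x‖ = 1) :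
    Tendsto (fun n => (S n u).1 x) atTop (𝓝 (u.1 x)) := by
  have h := tendsto_setIntegral_pow_smul_of_unique_maximum_of_isCompact_of_continuousOn (μ := μS)
    (x₀ := (⟨x, mem_sphere_zero_iff_norm.2 hx⟩ : S3)) (g := fun y : S3 => u.1 y)
    (c := fun y : S3 => 1 + ip x y) isCompact_univ
    (continuous_const.add ((ct_ip x).comp continuous_subtype_val)).continuousOn
    (fun y _ hy => by
      have := ip_lt hx (norm_eq_of_mem_sphere y) fun h => hy (Subtype.ext h)
      simp only [ip_self hx]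
      linarith)
    (fun y _ => ip_ge hx (norm_eq_of_mem_sphere y)) (by simp only [ip_self hx]; norm_num) (by simp)
    ((ct u).comp continuous_subtype_val).continuousOn
  simp only [Measure.restrict_univ, smul_eq_mul] at h
  simp only [S_ap _ u hx]
  exact h

theorem S_bd (u : A) : ∃ M, ∀ n x, ‖x‖ = 1 → |(S n u).1 x| ≤ M := by
  obtain ⟨M, hM⟩ := (isCompact_sphere (0 : H) 1).exists_bound_of_continuousOn (ct u).continuousOn
  have h0 : 0 ≤ M := (norm_nonneg _).trans (hM 1 (by simp))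
  refine ⟨M, fun n x hx => ?_⟩
  have c1 : Continuous fun y => (1 + ip x y) ^ n := (continuous_const.add (ct_ip x)).pow n
  have p : ∀ y, ‖y‖ = 1 → 0 ≤ (1 + ip x y) ^ n := fun y hy => pow_nonneg (ip_ge hx hy) n
  have hb : ∀ y, ‖y‖ = 1 → |u.1 y| ≤ M := fun y hy => hM y (mem_sphere_zero_iff_norm.2 hy)
  have h1 : 0 ≤ I fun y => (1 + ip x y) ^ n := (I_const 0).symm.trans_le (I_mono continuous_const c1 p)
  have h2 := I_mono (c1.mul (ct u)) (continuous_const.mul c1)
    (u := fun y => (1 + ip x y) ^ n * u.1 y) (v := fun y => M * (1 + ip x y) ^ n) fun y hy => by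
      nlinarith [p y hy, (abs_le.1 (hb y hy)).2]
  have h3 := I_mono (continuous_const.mul c1) (c1.mul (ct u))
    (v := fun y => (1 + ip x y) ^ n * u.1 y) (u := fun y => -M * (1 + ip x y) ^ n) fun y hy => by
      nlinarith [p y hy, (abs_le.1 (hb y hy)).1]
  rw [I_mul] at h2 h3
  rw [S_ap n u hx, abs_mul, abs_of_nonneg (inv_nonneg.2 h1)]
  refine (mul_le_mul_of_nonneg_left (abs_le.2 ⟨(neg_mul _ _).symm.trans_le h3, h2⟩)
    (inv_nonneg.2 h1)).trans ?_
  rw [mul_left_comm]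
  exact mul_le_of_le_one_right h0 inv_mul_le_one

theorem I_lim {F : ℕ → H → ℝ} {f : H → ℝ} {C : ℝ} (hc : ∀ n, Continuous (F n))
    (hb : ∀ n x, ‖x‖ = 1 → |F n x| ≤ C)
    (hl : ∀ x, ‖x‖ = 1 → Tendsto (fun n => F n x) atTop (𝓝 (f x))) :
    Tendsto (fun n => I (F n)) atTop (𝓝 (I f)) :=
  tendsto_integral_of_dominated_convergence (fun _ => C) (fun n => (intH (hc n)).1)
    (integrable_const C) (fun n => Eventually.of_forall fun x => hb n x (norm_eq_of_mem_sphere x))
    (Eventually.of_forall fun x => hl x (norm_eq_of_mem_sphere x))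

theorem J_S (u : A) : Tendsto (fun n => J (S n u)) atTop (𝓝 (J u)) := by
  obtain ⟨M, hM⟩ := S_bd u
  exact I_lim (fun n => ct _) hM fun x hx => S_lim u hx

theorem J_SS (u v : A) : Tendsto (fun n => J (S n u * S n v)) atTop (𝓝 (J (u * v))) := by
  obtain ⟨M, hM⟩ := S_bd u
  obtain ⟨N, hN⟩ := S_bd v
  refine I_lim (C := M * N) (fun n => ct _) (fun n x hx => ?_)
    fun x hx => (S_lim u hx).mul (S_lim v hx)
  show |(S n u).1 x * (S n v).1 x| ≤ _
  rw [abs_mul]
  exact mul_le_mul (hM n x hx) (hN n x hx) (abs_nonneg _) ((abs_nonneg _).trans (hM n x hx))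

theorem B_S (f g : A3) :
    Tendsto (fun n => B (fun i => S n (f i)) fun i => S n (g i)) atTop (𝓝 (B f g)) := by
  simp only [B_eq]
  exact ((J_SS _ _).add (J_SS _ _)).add (J_SS _ _)

theorem D_map (L : A →ₗ[ℝ] A) (h : ∀ i u, ZA i (L u) = L (ZA i u)) (f : A3) :
    D (fun i => L (f i)) = fun i => L (D f i) := by
  funext i
  fin_cases i
  · show D _ 0 = L (D f 0)
    simp only [D0, h, map_add, map_sub, two_mul]
  · show D _ 1 = L (D f 1)
    simp only [D1, h, map_add, map_sub, two_mul]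
  · show D _ 2 = L (D f 2)
    simp only [D2, h, map_add, map_sub, two_mul]

theorem base (f : A3) :
    0 ≤ B (D f) (D f) - 3 * B (D f) f + 2 * (J (f 0) ^ 2 + J (f 1) ^ 2 + J (f 2) ^ 2) := by
  refine ge_of_tendsto' (((B_S (D f) (D f)).sub ((B_S (D f) f).const_mul 3)).add
    (((((J_S (f 0)).pow 2).add ((J_S (f 1)).pow 2)).add ((J_S (f 2)).pow 2)).const_mul 2))
    fun n => ?_
  have h := base_fin (fg_P1.pow n) (one_P n) (Z_P n) (f := fun i => S n (f i))
    fun i => Submodule.smul_mem _ _ (T_mem n _)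
  rwa [D_map (S n) fun i u => by simp only [S, LinearMap.smul_apply, map_smul, Z_T]] at h

end

end Pool.Agent.MP_be5fd0_gt.H22
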