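import Pool.Agent.MP_be5fd0_gt.Defs

/-! Pinched two-forms on the four-torus. -/

namespace Pool.Agent.MP_be5fd0_gt.H22

/-- In some constant frame the sum of the squares of the six coefficients of the form is at most
five over root six times the Pfaffian, at every point. -/
def Pinched (σ : (Fin 4 → ℝ) → (Fin 4 → ℝ) [⋀^Fin 2]→L[ℝ] ℝ) : Prop :=
  ∃ e : Fin 4 → Fin 4 → ℝ, LinearIndependent ℝ e ∧ ∀ x,
    √6 * (σ x ![e 0, e 1] ^ 2 + σ x ![e 0, e 2] ^ 2 + σ x ![e 0, e 3] ^ 2 +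
      σ x ![e 1, e 2] ^ 2 + σ x ![e 1, e 3] ^ 2 + σ x ![e 2, e 3] ^ 2) ≤
    5 * (σ x ![e 0, e 1] * σ x ![e 2, e 3] - σ x ![e 0, e 2] * σ x ![e 1, e 3] +
      σ x ![e 0, e 3] * σ x ![e 1, e 2])

end Pool.Agent.MP_be5fd0_gt.H22
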