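import Pool.Agent.MP_be5fd0_gt.H22.Base

/-! Two monotonicity formulas for pinched closed two-forms. -/

namespace Pool.Agent.MP_be5fd0_gt.H22

open Set Filter Topology Metric MeasureTheory
open scoped ContDiff

noncomputable section

/-- coordinate functions -/
def c : Fin 4 → A := ![lin co0, lin co1, lin co2, lin co3]

theorem c0_ap (x : H) : (c 0).1 x = x.re := rfl
theorem c1_ap (x : H) : (c 1).1 x = x.imI := rfl
theorem c2_ap (x : H) : (c 2).1 x = x.imJ := rfl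
theorem c3_ap (x : H) : (c 3).1 x = x.imK := rfl

theorem Zc : (ZA 0 (c 0) = -c 1 ∧ ZA 0 (c 1) = c 0 ∧ ZA 0 (c 2) = -c 3 ∧ ZA 0 (c 3) = c 2) ∧
    (ZA 1 (c 0) = -c 2 ∧ ZA 1 (c 1) = c 3 ∧ ZA 1 (c 2) = c 0 ∧ ZA 1 (c 3) = -c 1) ∧
    (ZA 2 (c 0) = -c 3 ∧ ZA 2 (c 1) = -c 2 ∧ ZA 2 (c 2) = c 1 ∧ ZA 2 (c 3) = c 0) := by
  refine ⟨⟨?_, ?_, ?_, ?_⟩, ⟨?_, ?_, ?_, ?_⟩, ⟨?_, ?_, ?_, ?_⟩⟩ <;>
    exact Subtype.ext (funext fun x => (X_clm _ _ x).trans (by
      simp [c0_ap, c1_ap, c2_ap, c3_ap]))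

/-- the eigenfields of the curl for the eigenvalue minus two -/
def g : Fin 3 → A3 :=
  ![![c 0 * c 0 + c 1 * c 1 - c 2 * c 2 - c 3 * c 3, 2 * (c 1 * c 2 + c 0 * c 3),
      2 * (c 1 * c 3 - c 0 * c 2)],
    ![2 * (c 1 * c 2 - c 0 * c 3), c 0 * c 0 - c 1 * c 1 + c 2 * c 2 - c 3 * c 3,
      2 * (c 2 * c 3 + c 0 * c 1)],
    ![2 * (c 1 * c 3 + c 0 * c 2), 2 * (c 2 * c 3 - c 0 * c 1),
      c 0 * c 0 - c 1 * c 1 - c 2 * c 2 + c 3 * c 3]]

theorem D_g (α : Fin 3) : D (g α) = (-2 : ℝ) • g α := by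
  have e : ∀ u : A, (-2 : ℝ) • u = -2 * u := fun u => by
    rw [neg_smul, two_smul]; ring
  obtain ⟨⟨a0, a1, a2, a3⟩, ⟨b0, b1, b2, b3⟩, ⟨d0, d1, d2, d3⟩⟩ := Zc
  funext i
  rw [Pi.smul_apply, e]
  fin_cases α <;> fin_cases i <;>
    simp only [g, Fin.zero_eta, Fin.mk_one, Fin.reduceFinMk, D0, D1, D2, Matrix.cons_val_zero,
      Matrix.cons_val_one, Matrix.cons_val, map_two, map_add, map_sub, ZA_mul, a0, a1, a2, a3, b0,
      b1, b2, b3, d0, d1, d2, d3] <;> ring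

theorem B_gg (α β : Fin 3) : B (g α) (g β) = if α = β then 1 else 0 := by
  have e : dot (g α) (g β) = (if α = β then 1 else 0) *
      (c 0 * c 0 + c 1 * c 1 + c 2 * c 2 + c 3 * c 3) ^ 2 := by
    fin_cases α <;> fin_cases β <;> simp [g, dot] <;> ring
  rw [B_ap, e]
  split_ifs
  · refine (I_congr (v := fun _ => 1) fun x hx => ?_).trans (I_const 1)
    show 1 * (x.re * x.re + x.imI * x.imI + x.imJ * x.imJ + x.imK * x.imK) ^ 2 = 1
    rw [← sq, ← sq, ← sq, ← sq, nsq hx]; norm_num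
  · rw [zero_mul, map_zero]

theorem J_D (f : A3) (i : Fin 3) : J (D f i) = 2 * J (f i) := by
  fin_cases i <;> simp [D0, D1, D2, J_Z, two_mul]

theorem J_g (α i : Fin 3) : J (g α i) = 0 := by
  have h := J_D (g α) i
  rw [D_g, Pi.smul_apply, map_smul, smul_eq_mul] at h
  linarith

theorem B_Dg (f : A3) (α : Fin 3) : B (D f) (g α) = -2 * B f (g α) := by
  rw [D_symm, D_g, map_smul, smul_eq_mul]

theorem B_gr_g (u : A) (α : Fin 3) : B (gr u) (g α) = 0 := by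
  have h := B_Dg (gr u) α
  rw [D_gr, map_zero, LinearMap.zero_apply] at h
  linarith

/-- self-dual mode -/
def pa (f : A3) : A3 := fun i => J (f i) • 1

/-- anti-self-dual mode -/
def pb (f : A3) : A3 := B f (g 0) • g 0 + B f (g 1) • g 1 + B f (g 2) • g 2

theorem B_pa (h f : A3) : B h (pa f) = J (h 0) * J (f 0) + J (h 1) * J (f 1) + J (h 2) * J (f 2) := by
  simp only [B_eq, pa, mul_smul_comm, mul_one, map_smul, smul_eq_mul]; ring

theorem B_pb (h f : A3) : B h (pb f) =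
    B h (g 0) * B f (g 0) + B h (g 1) * B f (g 1) + B h (g 2) * B f (g 2) := by
  simp only [pb, map_add, map_smul, smul_eq_mul]; ring

theorem aa (f : A3) : B (pa f) (pa f) = B f (pa f) := by simp [B_pa, pa, J_one]

theorem bb (f : A3) : B (pb f) (pb f) = B f (pb f) := by
  rw [B_pb, B_pb]
  simp [pb, B_gg]

theorem ba (f : A3) : B (pb f) (pa f) = 0 := by simp [B_pa, pb, J_g]

theorem bessel (f : A3) : B f (pa f) + B f (pb f) ≤ B f f := by
  have h := B_sq (f - pa f - pb f)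
  simp only [map_sub, LinearMap.sub_apply, aa, bb, ba, B_comm (pa f) (pb f), B_comm (pa f) f,
    B_comm (pb f) f] at h
  linarith

theorem pa_nonneg (f : A3) : 0 ≤ B f (pa f) := (B_sq _).trans_eq (aa f)

theorem pb_nonneg (f : A3) : 0 ≤ B f (pb f) := (B_sq _).trans_eq (bb f)

theorem gap (f : A3) : 0 ≤ B (D f) (D f) - 3 * B (D f) f + 2 * B f (pa f) ∧
    4 * B f (pa f) ≤ B (D f) (D f) ∧
    B f (pa f) + 25 * B f (pb f) ≤ B (D f) (D f) - 6 * B (D f) f + 9 * B f f := by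
  refine ⟨?_, ?_, ?_⟩
  · have := base f
    rw [B_pa]; linarith
  · have h := bessel (D f)
    have := pb_nonneg (D f)
    rw [B_pa] at h ⊢
    simp only [J_D] at h
    linarith
  · have h := bessel (D f - (3 : ℝ) • f)
    rw [B_pa, B_pb] at h ⊢
    simp only [map_sub, map_smul, LinearMap.sub_apply, LinearMap.smul_apply, Pi.sub_apply,
      Pi.smul_apply, smul_eq_mul, J_D, B_Dg, B_comm f (D f)] at h
    linarith

/-- dilations -/
def sr (ρ : ℝ) : A →ₗ[ℝ] A where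
  toFun u := ⟨fun x => u.1 (ρ • x), show Sm _ from (sm u).comp (contDiff_id.const_smul ρ)⟩
  map_add' _ _ := rfl
  map_smul' _ _ := rfl

theorem sr_mul (ρ : ℝ) (u v : A) : sr ρ (u * v) = sr ρ u * sr ρ v := rfl

theorem XA_sr (a : H) (ρ : ℝ) (u : A) : XA a (sr ρ u) = sr ρ (XA a u) :=
  Subtype.ext (funext fun x => by
    have h := ((sm u).df (ρ • x)).hasFDerivAt.comp x ((hasFDerivAt_id x).const_smul ρ)
    show fderiv ℝ (u.1 ∘ fun x => ρ • x) x (a * x) = fderiv ℝ u.1 (ρ • x) (a * ρ • x)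
    rw [h.fderiv]
    simp)

theorem deriv_sr (w u : A) (ρ : ℝ) : ∃ d, HasDerivAt (fun ρ => J (w * sr ρ u)) d ρ ∧
    ρ * d = J (w * sr ρ (XA 1 u)) := by
  have h := hasDerivAt_I (Γ := fun y s => w.1 y * u.1 (s • y)) (by
    have := sm u
    have := sm w
    fun_prop) ρ
  refine ⟨_, h, ?_⟩
  rw [← I_mul]
  refine I_congr fun y _ => ?_
  have h1 := (((sm u).df (ρ • y)).hasFDerivAt.comp_hasDerivAt ρ
    ((hasDerivAt_id ρ).smul_const y)).const_mul (w.1 y)
  refine (congrArg (ρ * ·) h1.deriv).trans ?_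
  show _ = w.1 y * fderiv ℝ u.1 (ρ • y) (1 * ρ • y)
  simp
  ring

/-- dilations of triples -/
def s3 (ρ : ℝ) (f : A3) : A3 := fun i => sr ρ (f i)

/-- radial derivative of triples -/
def R3 (f : A3) : A3 := fun i => XA 1 (f i)

theorem D_s3 (ρ : ℝ) (f : A3) : D (s3 ρ f) = s3 ρ (D f) := D_map _ (fun _ => XA_sr _ ρ) f

theorem D_R3 (f : A3) : D (R3 f) = R3 (D f) :=
  D_map (XA 1) (fun i u => Subtype.ext (funext fun x => (R_Z (sm u) i x).symm)) f

theorem deriv_B (f w : A3) (ρ : ℝ) : ∃ d, HasDerivAt (fun ρ => B (s3 ρ f) w) d ρ ∧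
    ρ * d = B (s3 ρ (R3 f)) w := by
  obtain ⟨d0, h0, e0⟩ := deriv_sr (w 0) (f 0) ρ
  obtain ⟨d1, h1, e1⟩ := deriv_sr (w 1) (f 1) ρ
  obtain ⟨d2, h2, e2⟩ := deriv_sr (w 2) (f 2) ρ
  simp only [B_comm _ w, B_eq]
  exact ⟨_, (h0.add h1).add h2, by rw [mul_add, mul_add, e0, e1, e2]; rfl⟩

theorem dJ (u : A) (t : ℝ) :
    HasDerivAt (fun t => J (sr (Real.exp t) u)) (J (sr (Real.exp t) (XA 1 u))) t := by
  obtain ⟨d, h, e⟩ := deriv_sr 1 u (Real.exp t)
  simp only [one_mul] at h e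
  exact (h.comp t (Real.hasDerivAt_exp t)).congr_deriv (by rw [mul_comm, e])

theorem dB (f w : A3) (t : ℝ) :
    HasDerivAt (fun t => B (s3 (Real.exp t) f) w) (B (s3 (Real.exp t) (R3 f)) w) t := by
  obtain ⟨d, h, e⟩ := deriv_B f w (Real.exp t)
  exact (h.comp t (Real.hasDerivAt_exp t)).congr_deriv (by rw [mul_comm, e])

theorem dBB (f h : A3) (t : ℝ) :
    HasDerivAt (fun t => B (s3 (Real.exp t) f) (s3 (Real.exp t) h))
      (B (s3 (Real.exp t) (R3 f)) (s3 (Real.exp t) h) +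
        B (s3 (Real.exp t) f) (s3 (Real.exp t) (R3 h))) t := by
  refine (dJ (dot f h) t).congr_deriv ?_
  rw [B_ap, B_ap, ← map_add]
  congr 1
  simp only [dot, map_add, XA_mul, sr_mul, s3, R3]
  ring

theorem mono_exp {y y' : ℝ → ℝ} (θ : ℝ) (hd : ∀ t, HasDerivAt y (y' t) t) (t : ℝ) :
    HasDerivAt (fun t => Real.exp (-θ * t) * y t) (Real.exp (-θ * t) * (y' t - θ * y t)) t :=
  ((((hasDerivAt_id t).const_mul (-θ)).exp).mul (hd t)).congr_deriv (by simp; ring)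

theorem nonpos_of {y y' : ℝ → ℝ} {θ C : ℝ} (hd : ∀ t, HasDerivAt y (y' t) t)
    (h : ∀ t, θ * y t ≤ y' t) (hθ : 4 < θ) (hb : ∀ t, y t ≤ C * Real.exp (4 * t)) (t : ℝ) :
    y t ≤ 0 := by
  have hm : Monotone fun t => Real.exp (-θ * t) * y t :=
    monotone_of_deriv_nonneg (fun t => (mono_exp θ hd t).differentiableAt) fun t => by
      rw [(mono_exp θ hd t).deriv]
      exact mul_nonneg (Real.exp_pos _).le (sub_nonneg.2 (h t))
  have hl : Tendsto (fun s => C * Real.exp ((4 - θ) * s)) atTop (𝓝 (C * 0)) :=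
    (Real.tendsto_exp_atBot.comp
      (tendsto_id.const_mul_atTop_of_neg (by linarith))).const_mul C
  have h1 : Real.exp (-θ * t) * y t ≤ C * 0 := ge_of_tendsto hl (by
    filter_upwards [eventually_ge_atTop t] with s hs
    refine (hm hs).trans ((mul_le_mul_of_nonneg_left (hb s) (Real.exp_pos _).le).trans_eq ?_)
    rw [mul_left_comm, ← Real.exp_add]
    congr 2
    ring)
  rw [mul_zero] at h1
  exact nonpos_of_mul_nonpos_right h1 (Real.exp_pos _)

theorem pos_of {y y' : ℝ → ℝ} {θ C : ℝ} (hd : ∀ t, HasDerivAt y (y' t) t)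
    (h : ∀ t, θ * y t < y' t) (hθ : θ < 4) (hb : ∀ t, C * Real.exp (4 * t) ≤ y t) (t : ℝ) :
    0 < y t := by
  have hm : StrictMono fun t => Real.exp (-θ * t) * y t :=
    strictMono_of_deriv_pos fun t => by
      rw [(mono_exp θ hd t).deriv]
      exact mul_pos (Real.exp_pos _) (sub_pos.2 (h t))
  have hl : Tendsto (fun s => C * Real.exp ((4 - θ) * s)) atBot (𝓝 (C * 0)) :=
    (Real.tendsto_exp_atBot.comp (tendsto_id.const_mul_atBot (by linarith))).const_mul C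
  have h1 : C * 0 ≤ Real.exp (-θ * (t - 1)) * y (t - 1) := le_of_tendsto hl (by
    filter_upwards [eventually_le_atBot (t - 1)] with s hs
    refine le_trans (le_trans (le_of_eq ?_)
      (mul_le_mul_of_nonneg_left (hb s) (Real.exp_pos (-θ * s)).le)) (hm.monotone hs)
    rw [mul_left_comm, ← Real.exp_add]
    congr 2
    ring)
  rw [mul_zero] at h1
  exact pos_of_mul_pos_right (h1.trans_lt (hm (sub_one_lt t))) (Real.exp_pos _).le

theorem B_bd {f : A3} {K : ℝ} (h : ∀ i x, |(f i).1 x| ≤ K * ‖x‖ ^ 2) (t : ℝ) :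
    B (s3 (Real.exp t) f) (s3 (Real.exp t) f) ≤ 3 * K ^ 2 * Real.exp (4 * t) := by
  refine (I_mono (ct _) continuous_const fun x hx => ?_).trans_eq (I_const _)
  have h1 : ∀ i, (f i).1 (Real.exp t • x) * (f i).1 (Real.exp t • x) ≤
      K ^ 2 * Real.exp (4 * t) := fun i => by
    have h2 := h i (Real.exp t • x)
    rw [norm_smul, hx, mul_one, Real.norm_of_nonneg (Real.exp_pos t).le] at h2
    rw [← sq, ← sq_abs, show 4 * t = (4 : ℕ) * t by norm_num, Real.exp_nat_mul]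
    exact (pow_le_pow_left₀ (abs_nonneg _) h2 2).trans_eq (by ring)
  exact (add_le_add (add_le_add (h1 0) (h1 1)) (h1 2)).trans_eq (by ring)

theorem rad_bd {u : A} {K : ℝ} (h0 : u.1 0 = 0) (h : ∀ x, |(XA 1 u).1 x| ≤ K * ‖x‖ ^ 2) (x : H) :
    |u.1 x| ≤ K * ‖x‖ ^ 2 := by
  have hd : ∀ s : ℝ, HasDerivAt (fun s : ℝ => u.1 (s • x)) (fderiv ℝ u.1 (s • x) x) s := fun s =>
    (((sm u).df (s • x)).hasFDerivAt.comp_hasDerivAt s
      ((hasDerivAt_id s).smul_const x)).congr_deriv (by rw [one_smul])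
  obtain ⟨s, hs, e⟩ := exists_hasDerivAt_eq_slope _ _ one_pos
    (fun s _ => (hd s).continuousAt.continuousWithinAt) fun s _ => hd s
  have h1 : |fderiv ℝ u.1 (s • x) (1 * s • x)| ≤ _ := h (s • x)
  have h2 : 0 ≤ K * ‖x‖ ^ 2 := (abs_nonneg _).trans (h x)
  rw [one_mul, map_smul, e, norm_smul, Real.norm_of_nonneg hs.1.le] at h1
  simp only [one_smul, zero_smul, h0, sub_zero, div_one, smul_eq_mul, abs_mul,
    abs_of_pos hs.1] at h1
  have h3 : s * |u.1 x| ≤ s * (K * ‖x‖ ^ 2) := by nlinarith [mul_nonneg h2 hs.1.le, hs.2]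
  exact le_of_mul_le_mul_left h3 hs.1

theorem lyap {F : A3} {K : ℝ} (h0 : ∀ i, (F i).1 0 = 0)
    (hE : ∀ i x, |(R3 F i).1 x| ≤ K * ‖x‖ ^ 2) (hB : ∀ i x, |(D F i).1 x| ≤ K * ‖x‖ ^ 2)
    (hp : ∀ x, √6 * ((dot (R3 F) (R3 F)).1 x + (dot (D F) (D F)).1 x) ≤
      5 * (dot (R3 F) (D F)).1 x)
    (hn : ∀ x, x ≠ 0 → (dot (D F) (D F)).1 x ≠ 0) (t : ℝ) :
    B (s3 (Real.exp t) F) (pb (s3 (Real.exp t) F)) <
      B (s3 (Real.exp t) F) (pa (s3 (Real.exp t) F)) := by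
  set s := √6 with hs
  have s6 : s * s = 6 := Real.mul_self_sqrt (by norm_num)
  have s1 : 2.449 < s := Real.lt_sqrt_of_sq_lt (by norm_num)
  have s2 : s < 2.45 := (Real.sqrt_lt' (by norm_num)).2 (by norm_num)
  let f := fun t => s3 (Real.exp t) F
  let E := fun t => s3 (Real.exp t) (R3 F)
  have bn : ∀ t, B (f t) (f t) ≤ _ := B_bd fun i => rad_bd (h0 i) (hE i)
  have bx : ∀ t, B (D (f t)) (D (f t)) ≤ 3 * K ^ 2 * Real.exp (4 * t) := fun t => by
    rw [D_s3]; exact B_bd hB t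
  have px : ∀ t, 0 < B (D (f t)) (D (f t)) := fun t => by
    refine (B_sq _).lt_of_ne fun h => hn (Real.exp t • 1) (by simp) ?_
    rw [D_s3] at h
    exact I_eq_zero (ct _) (fun x => add_nonneg (add_nonneg (mul_self_nonneg _) (mul_self_nonneg _))
      (mul_self_nonneg _)) h.symm norm_one
  have pin : ∀ t, B (E t) (E t) + B (D (f t)) (D (f t)) ≤ 5 * s / 6 * B (E t) (D (f t)) := fun t => by
    have h : s * (B (E t) (E t) + B (D (f t)) (D (f t))) ≤ 5 * B (E t) (D (f t)) := by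
      rw [D_s3, B_ap, B_ap, B_ap, ← map_add, ← smul_eq_mul, ← smul_eq_mul, ← map_smul, ← map_smul]
      exact I_mono (ct _) (ct _) fun x _ => hp _
    have := mul_le_mul_of_nonneg_left h (by linarith : 0 ≤ s)
    rw [← mul_assoc, s6] at this
    linarith
  have dn : ∀ t, HasDerivAt (fun t => B (f t) (f t)) (2 * B (E t) (f t)) t := fun t =>
    (dBB F F t).congr_deriv (by rw [B_comm (s3 _ F), two_mul])
  have dy : ∀ t, HasDerivAt (fun t => B (D (f t)) (f t)) (2 * B (E t) (D (f t))) t := fun t => by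
    simp only [f, D_s3]
    refine (dBB (D F) F t).congr_deriv ?_
    rw [← D_R3, ← D_s3, D_symm, ← D_s3, B_comm (D _), two_mul]
  have da : ∀ t, HasDerivAt (fun t => B (f t) (pa (f t))) (2 * B (E t) (pa (f t))) t := fun t => by
    simp only [B_pa]
    exact ((((dJ (F 0) t).mul (dJ (F 0) t)).add ((dJ (F 1) t).mul (dJ (F 1) t))).add
      ((dJ (F 2) t).mul (dJ (F 2) t))).congr_deriv (by simp only [E, f, s3, R3]; ring)
  have db : ∀ t, HasDerivAt (fun t => B (f t) (pb (f t))) (2 * B (E t) (pb (f t))) t := fun t => by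
    simp only [B_pb]
    exact ((((dB F (g 0) t).mul (dB F (g 0) t)).add ((dB F (g 1) t).mul (dB F (g 1) t))).add
      ((dB F (g 2) t).mul (dB F (g 2) t))).congr_deriv (by simp only [E, f]; ring)
  have cs : ∀ t, 2 * B (D (f t)) (f t) ≤ B (D (f t)) (D (f t)) + B (f t) (f t) ∧
      -(2 * B (D (f t)) (f t)) ≤ B (D (f t)) (D (f t)) + B (f t) (f t) := fun t => by
    have h1 := B_sq (D (f t) - f t)
    have h2 := B_sq (D (f t) + f t)
    simp only [map_sub, map_add, LinearMap.sub_apply, LinearMap.add_apply,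
      B_comm (f t) (D (f t))] at h1 h2
    constructor <;> linarith
  have d2 : ∀ t, HasDerivAt (fun t => 5 * s / 12 * B (D (f t)) (f t) - s * B (f t) (f t)) _ t :=
    fun t => ((dy t).const_mul (5 * s / 12)).sub ((dn t).const_mul s)
  have d1 : ∀ t, HasDerivAt (fun t => 5 * s / 12 * B (D (f t)) (f t) - s * B (f t) (f t) +
    B (f t) (pa (f t)) - B (f t) (pb (f t))) _ t := fun t => ((d2 t).add (da t)).sub (db t)
  have q2 := nonpos_of (θ := 2 * s) (C := 6 * K ^ 2 * 2) d2 (fun t => by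
    have h1 := B_sq (E t - s • f t)
    simp only [map_sub, map_smul, LinearMap.sub_apply, LinearMap.smul_apply, smul_eq_mul,
      B_comm (f t) (E t), mul_sub, ← mul_assoc, s6] at h1
    obtain ⟨g1, -, g3⟩ := gap (f t)
    have e1 : 2 * s * (5 * s / 12 * B (D (f t)) (f t) - s * B (f t) (f t)) =
        5 * B (D (f t)) (f t) - 12 * B (f t) (f t) := by
      linear_combination (5 / 6 * B (D (f t)) (f t) - 2 * B (f t) (f t)) * s6
    rw [e1]
    linarith [pin t, pb_nonneg (f t)]) (by linarith) (fun t => by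
    nlinarith [(cs t).1, bn t, bx t, B_sq (f t), px t]) t
  have q1 := pos_of (θ := 3) (C := -(6 * K ^ 2 * 4)) d1 (fun t => by
    have h1 := B_sq (E t - s • f t + pa (f t) - pb (f t))
    simp only [map_sub, map_add, map_smul, LinearMap.sub_apply, LinearMap.add_apply,
      LinearMap.smul_apply, smul_eq_mul, B_comm (f t) (E t), B_comm (pa (f t)) (E t),
      B_comm (pb (f t)) (E t), B_comm (pa (f t)) (f t), B_comm (pb (f t)) (f t),
      B_comm (pa (f t)) (pb (f t)), aa, bb, ba, mul_sub, mul_add, ← mul_assoc, s6] at h1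
    obtain ⟨g1, g2, g3⟩ := gap (f t)
    have g4 := bessel (f t)
    nlinarith [pin t, pb_nonneg (f t), pa_nonneg (f t), px t,
      mul_nonneg (by linarith : 0 ≤ 5 * s / 12 - 1 / 4) g1,
      mul_nonneg (by linarith : 0 ≤ 2.45 - s) (pb_nonneg (f t)),
      mul_nonneg (by linarith : 0 ≤ s - 2.449) (pa_nonneg (f t)),
      mul_nonneg (by linarith : 0 ≤ s - 2.449) (B_sq (f t)),
      mul_nonneg (by linarith : 0 ≤ 2.45 - s) (px t).le]) (by norm_num) (fun t => by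
    nlinarith [(cs t).2, bn t, bx t, B_sq (f t), px t, bessel (f t), pa_nonneg (f t)]) t
  show B (f t) (pb (f t)) < B (f t) (pa (f t))
  linarith

/-- bilinear forms -/
abbrev Bl := H →L[ℝ] H →L[ℝ] ℝ

/-- alternating part -/
def om (L : Bl) (u v : H) : ℝ := L u v - L v u

/-- self-dual components -/
def sd (k : Fin 3) (L : Bl) : ℝ := om L 1 (q k) + om L (q (k + 1)) (q (k + 2))

/-- anti-self-dual components -/
def an (k : Fin 3) (L : Bl) : ℝ := om L 1 (q k) - om L (q (k + 1)) (q (k + 2))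

theorem om_exp (L : Bl) (u v : H) : om L u v =
    (u.re * v.imI - u.imI * v.re) * om L 1 (q 0) + (u.re * v.imJ - u.imJ * v.re) * om L 1 (q 1) +
    (u.re * v.imK - u.imK * v.re) * om L 1 (q 2) +
    (u.imI * v.imJ - u.imJ * v.imI) * om L (q 0) (q 1) +
    (u.imJ * v.imK - u.imK * v.imJ) * om L (q 1) (q 2) +
    (u.imK * v.imI - u.imI * v.imK) * om L (q 2) (q 0) := by
  have e : ∀ u : H, u = u.re • (1 : H) + u.imI • q 0 + u.imJ • q 1 + u.imK • q 2 := fun u => by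
    ext <;> simp
  conv_lhs => rw [e u, e v]
  simp only [om, map_add, map_smul, add_apply, smul_apply, smul_eq_mul]
  ring

theorem nsq' (x : H) : ‖x‖ ^ 2 = x.re ^ 2 + x.imI ^ 2 + x.imJ ^ 2 + x.imK ^ 2 := by
  rw [← Quaternion.normSq_def', Quaternion.normSq_eq_norm_mul_self, sq]

theorem fin3 {P : Fin 3 → Prop} (h0 : P 0) (h1 : P 1) (h2 : P 2) (i : Fin 3) : P i := by
  fin_cases i
  exacts [h0, h1, h2]

theorem id_sd (L : Bl) (x : H) : ∀ k,
    om L x (q k * x) + om L (q (k + 1) * x) (q (k + 2) * x) = ‖x‖ ^ 2 * sd k L := by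
  refine fin3 ?_ ?_ ?_ <;> rw [om_exp L x, om_exp L (_ * x), nsq'] <;> simp [sd] <;> ring

theorem id_an (L : Bl) (ρ : ℝ) (x : H) : ∀ α,
    (om L (ρ • x) (q 0 * ρ • x) - om L (q 1 * ρ • x) (q 2 * ρ • x)) * (g α 0).1 x +
    (om L (ρ • x) (q 1 * ρ • x) - om L (q 2 * ρ • x) (q 0 * ρ • x)) * (g α 1).1 x +
    (om L (ρ • x) (q 2 * ρ • x) - om L (q 0 * ρ • x) (q 1 * ρ • x)) * (g α 2).1 x =
      ρ ^ 2 * (‖x‖ ^ 2) ^ 2 * an α L := by
  simp only [om_exp L (ρ • x), om_exp L (_ * ρ • x), nsq']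
  refine fin3 ?_ ?_ ?_ <;> simp [an, g, c0_ap, c1_ap, c2_ap, c3_ap, two_ap] <;> ring

theorem id_sq (L : Bl) (x : H) :
    om L x (q 0 * x) * om L x (q 0 * x) + om L x (q 1 * x) * om L x (q 1 * x) +
      om L x (q 2 * x) * om L x (q 2 * x) +
    (om L (q 1 * x) (q 2 * x) * om L (q 1 * x) (q 2 * x) +
      om L (q 2 * x) (q 0 * x) * om L (q 2 * x) (q 0 * x) +
      om L (q 0 * x) (q 1 * x) * om L (q 0 * x) (q 1 * x)) =
    (‖x‖ ^ 2) ^ 2 * ((sd 0 L ^ 2 + sd 1 L ^ 2 + sd 2 L ^ 2 +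
      (an 0 L ^ 2 + an 1 L ^ 2 + an 2 L ^ 2)) / 2) := by
  simp only [om_exp L x, om_exp L (_ * x), nsq']
  simp [sd, an]
  ring

theorem id_pf (L : Bl) (x : H) :
    om L x (q 0 * x) * om L (q 1 * x) (q 2 * x) + om L x (q 1 * x) * om L (q 2 * x) (q 0 * x) +
      om L x (q 2 * x) * om L (q 0 * x) (q 1 * x) =
    (‖x‖ ^ 2) ^ 2 * ((sd 0 L ^ 2 + sd 1 L ^ 2 + sd 2 L ^ 2 -
      (an 0 L ^ 2 + an 1 L ^ 2 + an 2 L ^ 2)) / 4) := by
  simp only [om_exp L x, om_exp L (_ * x), nsq']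
  simp [sd, an]
  ring

theorem ball {ψ W : ℝ → ℝ} (hW : Continuous W)
    (h : ∀ ρ, ∃ d, HasDerivAt ψ d ρ ∧ 2 * ψ ρ + ρ * d = ρ ^ 2 * W ρ) (r : ℝ) :
    ψ r = r ^ 2 * ∫ s in (0 : ℝ)..1, s ^ 3 * W (r * s) := by
  rw [← intervalIntegral.integral_const_mul,
    intervalIntegral.integral_eq_sub_of_hasDerivAt (f := fun s => s ^ 2 * ψ (r * s))
    (fun s _ => ?_) (Continuous.intervalIntegrable (by fun_prop) _ _)]
  · simp
  · obtain ⟨d, h1, h2⟩ := h (r * s)
    refine ((hasDerivAt_pow 2 s).mul (h1.comp s ((hasDerivAt_id s).const_mul r))).congr_deriv ?_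
    simp
    linear_combination s * h2

variable {l : H → H →L[ℝ] ℝ} (hl : ContDiff ℝ ∞ l)

/-- components of a one-form -/
def La (b : H) : A := ⟨fun x => l x (b * x), show Sm _ from hl.clm_apply (by fun_prop)⟩

theorem X_La (a b x : H) : (XA a (La hl b)).1 x - (XA b (La hl a)).1 x =
    om (fderiv ℝ l x) (a * x) (b * x) + l x ((b * a - a * b) * x) := by
  have key : ∀ a b : H, (XA a (La hl b)).1 x =
      fderiv ℝ l x (a * x) (b * x) + l x (b * (a * x)) := fun a b => by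
    have h1 : HasFDerivAt (fun y : H => b * y) (ContinuousLinearMap.mul ℝ H b) x :=
      (ContinuousLinearMap.mul ℝ H b).hasFDerivAt
    have h2 := ((hl.differentiable (by simp) x).hasFDerivAt.clm_apply h1).fderiv
    show fderiv ℝ (fun y => l y (b * y)) x (a * x) = _
    rw [h2]
    simp [add_comm]
  rw [key, key, sub_mul, map_sub, mul_assoc, mul_assoc, om]
  ring

/-- tangential components -/
def f0 : A3 := fun i => La hl (q i)

theorem E_ap (i : Fin 3) (x : H) :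
    ((R3 (f0 hl) - gr (La hl 1)) i).1 x = om (fderiv ℝ l x) x (q i * x) := by
  have h := X_La hl 1 (q i) x
  rw [mul_one, one_mul, one_mul, sub_self, zero_mul, map_zero, add_zero] at h
  exact h

theorem D_ap (x : H) : ∀ k, (D (f0 hl) k).1 x = om (fderiv ℝ l x) (q (k + 1) * x) (q (k + 2) * x) := by
  refine fin3 ?_ ?_ ?_
  · have h := X_La hl (q 1) (q 2) x
    rw [show q 2 * q 1 - q 1 * q 2 = (-2 : ℝ) • q 0 by ext <;> simp; norm_num, smul_mul_assoc,
      map_smul, smul_eq_mul] at h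
    show (XA _ (La hl _)).1 x - (XA _ (La hl _)).1 x + 2 * l x (q 0 * x) = om _ (q 1 * x) (q 2 * x)
    linarith
  · have h := X_La hl (q 2) (q 0) x
    rw [show q 0 * q 2 - q 2 * q 0 = (-2 : ℝ) • q 1 by ext <;> simp; norm_num, smul_mul_assoc,
      map_smul, smul_eq_mul] at h
    show (XA _ (La hl _)).1 x - (XA _ (La hl _)).1 x + 2 * l x (q 1 * x) = om _ (q 2 * x) (q 0 * x)
    linarith
  · have h := X_La hl (q 0) (q 1) x
    rw [show q 1 * q 0 - q 0 * q 1 = (-2 : ℝ) • q 2 by ext <;> simp; norm_num, smul_mul_assoc,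
      map_smul, smul_eq_mul] at h
    show (XA _ (La hl _)).1 x - (XA _ (La hl _)).1 x + 2 * l x (q 2 * x) = om _ (q 0 * x) (q 1 * x)
    linarith

/-- ball average of a component, up to the factor four -/
def M (φ : Bl → ℝ) (l : H → H →L[ℝ] ℝ) (r : ℝ) : ℝ :=
  ∫ s in (0 : ℝ)..1, s ^ 3 * I fun y => φ (fderiv ℝ l ((r * s) • y))

theorem ct_W {w : H → ℝ} (hw : Sm w) : Continuous fun ρ : ℝ => I fun y => w (ρ • y) :=
  continuous_iff_continuousAt.2 fun ρ => (hasDerivAt_I (Γ := fun y ρ => w (ρ • y))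
    (hw.comp (by fun_prop)) ρ).continuousAt

include hl in
theorem sm_om (u v : H) : Sm fun x => om (fderiv ℝ l x) u v :=
  (((hl.fderiv_right (m := ∞) le_rfl).clm_apply contDiff_const).clm_apply contDiff_const).sub
    (((hl.fderiv_right (m := ∞) le_rfl).clm_apply contDiff_const).clm_apply contDiff_const)

theorem s3_gr (ρ : ℝ) (u : A) : s3 ρ (gr u) = gr (sr ρ u) := funext fun _ => (XA_sr _ ρ u).symm

theorem s3_sub (ρ : ℝ) (f h : A3) : s3 ρ (f - h) = s3 ρ f - s3 ρ h := rfl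

theorem M_sd (k : Fin 3) (r : ℝ) : J (s3 r (f0 hl) k) = r ^ 2 * M (sd k) l r := by
  refine ball (ψ := fun r => J (s3 r (f0 hl) k)) (ct_W ((sm_om hl _ _).add (sm_om hl _ _))) (fun ρ => ?_) r
  obtain ⟨d, h1, h2⟩ := deriv_sr 1 (f0 hl k) ρ
  simp only [one_mul] at h1 h2
  refine ⟨d, h1, ?_⟩
  have h3 : J (s3 ρ (R3 (f0 hl) - gr (La hl 1)) k) = ρ * d := by
    rw [s3_sub, s3_gr, Pi.sub_apply, map_sub, h2, gr, J_Z, sub_zero]; rfl
  rw [← J_D, D_s3, ← h3, ← map_add, ← I_mul]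
  refine I_congr fun y hy => ?_
  have h4 := id_sd (fderiv ℝ l (ρ • y)) (ρ • y) k
  rw [← E_ap hl, ← D_ap hl, norm_smul, hy, mul_one, Real.norm_eq_abs, sq_abs, add_comm] at h4
  exact h4

theorem M_an (α : Fin 3) (r : ℝ) : B (s3 r (f0 hl)) (g α) = r ^ 2 * M (an α) l r := by
  refine ball (ψ := fun r => B (s3 r (f0 hl)) (g α))
    (ct_W ((sm_om hl _ _).sub (sm_om hl _ _))) (fun ρ => ?_) r
  obtain ⟨d, h1, h2⟩ := deriv_B (f0 hl) (g α) ρ
  refine ⟨d, h1, ?_⟩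
  have h3 : B (s3 ρ (R3 (f0 hl) - gr (La hl 1) - D (f0 hl))) (g α) =
      2 * B (s3 ρ (f0 hl)) (g α) + ρ * d := by
    rw [s3_sub, s3_sub, s3_gr, ← D_s3]
    simp only [map_sub, LinearMap.sub_apply, B_Dg, B_gr_g, h2]
    ring
  rw [← h3, ← I_mul]
  refine I_congr fun y hy => ?_
  have h4 := id_an (fderiv ℝ l (ρ • y)) ρ y α
  have d0 := D_ap hl (ρ • y) 0
  have d1 := D_ap hl (ρ • y) 1
  have d2 := D_ap hl (ρ • y) 2
  simp only [Fin.reduceAdd] at d0 d1 d2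
  rw [← E_ap hl, ← E_ap hl, ← E_ap hl, ← d0, ← d1, ← d2, hy, one_pow, one_pow, mul_one] at h4
  exact h4

include hl in
theorem avg_bd {C : ℝ} (hC : ∀ x, ‖l x‖ ≤ C) {r : ℝ} (hr : 0 < r) :
    r ^ 2 * (M (sd 0) l r ^ 2 + M (sd 1) l r ^ 2 + M (sd 2) l r ^ 2 +
      (M (an 0) l r ^ 2 + M (an 1) l r ^ 2 + M (an 2) l r ^ 2)) ≤ 3 * C ^ 2 := by
  have h := bessel (s3 r (f0 hl))
  have h1 : B (s3 r (f0 hl)) (s3 r (f0 hl)) ≤ 3 * (C * r) ^ 2 := by
    refine (I_mono (ct _) continuous_const fun x hx => ?_).trans_eq (I_const _)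
    have h1 : ∀ i, l (r • x) (q i * r • x) * l (r • x) (q i * r • x) ≤ (C * r) ^ 2 := fun i => by
      have h2 := (l (r • x)).le_of_opNorm_le (hC _) (q i * r • x)
      rw [norm_mul, norm_q, norm_smul, hx, Real.norm_of_nonneg hr.le, one_mul, mul_one] at h2
      rw [← sq, ← sq_abs]
      exact pow_le_pow_left₀ (abs_nonneg _) h2 2
    exact (add_le_add (add_le_add (h1 0) (h1 1)) (h1 2)).trans_eq (by ring)
  rw [B_pa, B_pb] at h
  simp only [M_sd, M_an] at h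
  refine le_of_mul_le_mul_left ?_ (pow_pos hr 2)
  linarith

theorem exists_gauge : ∃ φ : A, XA 1 φ = La hl 1 := by
  have hs : Sm fun x => ∫ s in Icc (0 : ℝ) 1, l (s • x) x :=
    param_smooth (κ := fun s : ℝ => s) (Γ := fun s x => l (s • x) x) isCompact_Icc continuous_id
      ((hl.comp (by fun_prop)).clm_apply contDiff_snd)
  refine ⟨⟨_, hs⟩, Subtype.ext (funext fun x => ?_)⟩
  have h1 := (hs.df ((1 : ℝ) • x)).hasFDerivAt.comp_hasDerivAt (1 : ℝ)
    ((hasDerivAt_id (1 : ℝ)).smul_const x)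
  have hc : Continuous fun s : ℝ => l (s • x) x :=
    (hl.continuous.comp (by fun_prop)).clm_apply continuous_const
  have h2 := (hc.integral_hasStrictDerivAt 0 1).hasDerivAt
  have e : ((fun x => ∫ s in Icc (0 : ℝ) 1, l (s • x) x) ∘ fun r : ℝ => id r • x) =
      fun r => ∫ s in (0 : ℝ)..r, l (s • x) x := funext fun r => by
    have h3 := intervalIntegral.smul_integral_comp_mul_right (a := 0) (b := 1)
      (fun s : ℝ => l (s • x) x) r
    rw [zero_mul, one_mul] at h3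
    rw [← h3, ← intervalIntegral.integral_smul, intervalIntegral.integral_of_le zero_le_one,
      ← integral_Icc_eq_integral_Ioc]
    simp [smul_smul]
  rw [e] at h1
  have h4 := h1.unique h2
  simp only [one_smul] at h4
  show fderiv ℝ _ x (1 * x) = l x (1 * x)
  rw [one_mul]
  exact h4

include hl in
theorem avg_nd {K : ℝ} (hK : ∀ x u v, |om (fderiv ℝ l x) u v| ≤ K * ‖u‖ * ‖v‖)
    (hp : ∀ x, √6 * ((sd 0 (fderiv ℝ l x) ^ 2 + sd 1 (fderiv ℝ l x) ^ 2 + sd 2 (fderiv ℝ l x) ^ 2 +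
      (an 0 (fderiv ℝ l x) ^ 2 + an 1 (fderiv ℝ l x) ^ 2 + an 2 (fderiv ℝ l x) ^ 2)) / 2) ≤
      5 * ((sd 0 (fderiv ℝ l x) ^ 2 + sd 1 (fderiv ℝ l x) ^ 2 + sd 2 (fderiv ℝ l x) ^ 2 -
      (an 0 (fderiv ℝ l x) ^ 2 + an 1 (fderiv ℝ l x) ^ 2 + an 2 (fderiv ℝ l x) ^ 2)) / 4))
    (hn : ∀ x, sd 0 (fderiv ℝ l x) ^ 2 + sd 1 (fderiv ℝ l x) ^ 2 + sd 2 (fderiv ℝ l x) ^ 2 ≠
      an 0 (fderiv ℝ l x) ^ 2 + an 1 (fderiv ℝ l x) ^ 2 + an 2 (fderiv ℝ l x) ^ 2)
    {r : ℝ} (hr : 0 < r) : M (an 0) l r ^ 2 + M (an 1) l r ^ 2 + M (an 2) l r ^ 2 <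
      M (sd 0) l r ^ 2 + M (sd 1) l r ^ 2 + M (sd 2) l r ^ 2 := by
  obtain ⟨φ, hφ⟩ := exists_gauge hl
  have e1 : R3 (f0 hl - gr φ) = R3 (f0 hl) - gr (La hl 1) := funext fun i => by
    show XA 1 (_ - ZA i φ) = _ - ZA i (La hl 1)
    rw [map_sub, ← hφ]
    congr 1
    exact Subtype.ext (funext (R_Z (sm φ) i))
  have e2 : D (f0 hl - gr φ) = D (f0 hl) := by rw [map_sub, D_gr, sub_zero]
  have e3 : ∀ (f h : A3) x, (dot f h).1 x =
      (f 0).1 x * (h 0).1 x + (f 1).1 x * (h 1).1 x + (f 2).1 x * (h 2).1 x := fun _ _ _ => rfl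
  have h := lyap (F := f0 hl - gr φ) (K := K) (fun i => by
      show l 0 (q i * 0) - fderiv ℝ φ.1 0 (q i * 0) = 0
      simp)
    (fun i x => by
      rw [e1, E_ap]
      exact (hK _ _ _).trans_eq (by rw [norm_mul, norm_q]; ring))
    (fun i x => by
      rw [e2, D_ap]
      exact (hK _ _ _).trans_eq (by rw [norm_mul, norm_mul, norm_q, norm_q]; ring))
    (fun x => by
      simp only [e1, e2, e3, E_ap, D_ap, Fin.reduceAdd]
      rw [id_sq, id_pf, mul_left_comm, mul_left_comm 5]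
      exact mul_le_mul_of_nonneg_left (hp x) (by positivity))
    (fun x hx h => by
      have h1 := id_pf (fderiv ℝ l x) x
      simp only [e2, e3, D_ap, Fin.reduceAdd] at h
      have s0 := mul_self_nonneg (om (fderiv ℝ l x) (q 1 * x) (q 2 * x))
      have s1 := mul_self_nonneg (om (fderiv ℝ l x) (q 2 * x) (q 0 * x))
      have s2 := mul_self_nonneg (om (fderiv ℝ l x) (q 0 * x) (q 1 * x))
      rw [mul_self_eq_zero.1 (by linarith : _ * om (fderiv ℝ l x) (q 1 * x) (q 2 * x) = 0),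
        mul_self_eq_zero.1 (by linarith : _ * om (fderiv ℝ l x) (q 2 * x) (q 0 * x) = 0),
        mul_self_eq_zero.1 (by linarith : _ * om (fderiv ℝ l x) (q 0 * x) (q 1 * x) = 0)] at h1
      have h2 : (‖x‖ ^ 2) ^ 2 ≠ 0 := by positivity
      have h3 := (mul_eq_zero.1 (h1.symm.trans (by ring))).resolve_left h2
      exact hn x (by linarith)) (Real.log r)
  rw [Real.exp_log hr, B_pa, B_pb, s3_sub, s3_gr] at h
  simp only [map_sub, LinearMap.sub_apply, Pi.sub_apply, B_gr_g, gr, J_Z, sub_zero, M_sd,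
    M_an] at h
  refine lt_of_mul_lt_mul_left ?_ (pow_pos hr 4).le
  linarith

end

end Pool.Agent.MP_be5fd0_gt.H22
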