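import Pool.Agent.MP_be5fd0_gt.H22.Lya
import Pool.Agent.MP_be5fd0_gt.H22.Defs
import Pool.Agent.MP_be5fd0_gt.Mg.H13_Good

/-! Ball averages of pinched symplectic forms on the torus are symplectic. -/

namespace Pool.Agent.MP_be5fd0_gt.H22

open Set Filter Topology Metric MeasureTheory
open scoped ContDiff

noncomputable section

variable (e : Fin 4 → E)

/-- the frame as a map from the quaternions -/
def fr : H →L[ℝ] E :=
  co0.smulRight (e 0) + co1.smulRight (e 1) + co2.smulRight (e 2) + co3.smulRight (e 3)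

theorem fr_1 : fr e 1 = e 0 := by simp [fr]
theorem fr_q0 : fr e (q 0) = e 1 := by simp [fr]
theorem fr_q1 : fr e (q 1) = e 2 := by simp [fr]
theorem fr_q2 : fr e (q 2) = e 3 := by simp [fr]

/-- evaluation of two-forms -/
def ev (u v : H) : A2 →L[ℝ] ℝ := ContinuousAlternatingMap.apply ℝ E ℝ ![fr e u, fr e v]

theorem ev_ap (u v : H) (θ : A2) : ev e u v θ = θ ![fr e u, fr e v] := rfl

/-- self-dual components in the frame -/
def Sd (k : Fin 3) : A2 →L[ℝ] ℝ := ev e 1 (q k) + ev e (q (k + 1)) (q (k + 2))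

/-- anti-self-dual components in the frame -/
def An (k : Fin 3) : A2 →L[ℝ] ℝ := ev e 1 (q k) - ev e (q (k + 1)) (q (k + 2))

theorem Nd_iff (he : LinearIndependent ℝ e) (θ : A2) : Nd θ ↔
    Sd e 0 θ ^ 2 + Sd e 1 θ ^ 2 + Sd e 2 θ ^ 2 ≠ An e 0 θ ^ 2 + An e 1 θ ^ 2 + An e 2 θ ^ 2 := by
  let P : E →L[ℝ] E := LinearMap.toContinuousLinearMap (Fintype.linearCombination ℝ e)
  have hP : ∀ i, P (H13.ee i) = e i := fun i => by
    simp [P, H13.ee]
  have hi : Function.Injective P := he.fintypeLinearCombination_injective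
  have hs : Function.Surjective P := (LinearMap.injective_iff_surjective (f := P.toLinearMap)).1 hi
  have ap : ∀ u v, θ.compContinuousLinearMap P ![u, v] = θ ![P u, P v] := fun u v => by
    rw [ContinuousAlternatingMap.compContinuousLinearMap_apply]
    congr 1
    funext i
    fin_cases i <;> rfl
  have h1 : Nd θ ↔ Nd (θ.compContinuousLinearMap P) := by
    refine ⟨fun h u hu => ?_, fun h u hu => ?_⟩
    · obtain ⟨v, hv⟩ := h (P u) fun h0 => hu (hi (h0.trans (map_zero P).symm))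
      obtain ⟨w, rfl⟩ := hs v
      exact ⟨w, by rwa [ap]⟩
    · obtain ⟨w, rfl⟩ := hs u
      obtain ⟨v, hv⟩ := h w fun h0 => hu (by rw [h0, map_zero])
      exact ⟨P v, by rwa [← ap]⟩
  have h2 : Sd e 0 θ ^ 2 + Sd e 1 θ ^ 2 + Sd e 2 θ ^ 2 -
      (An e 0 θ ^ 2 + An e 1 θ ^ 2 + An e 2 θ ^ 2) = 4 * H13.Pf (θ.compContinuousLinearMap P) := by
    simp only [H13.Pf, ap, hP, Sd, An, add_apply, sub_apply, ev_ap, Fin.reduceAdd, fr_1, fr_q0,
      fr_q1, fr_q2, A2_swap θ (e 3) (e 1)]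
    ring
  rw [h1, ← sub_ne_zero, h2]
  exact ⟨fun h => mul_ne_zero (by norm_num) (H13.Pf_of_Nd h),
    fun h => H13.Nd_of_Pf (right_ne_zero_of_mul h)⟩

/-- pull-back of one-forms -/
def pb1 : A1 →L[ℝ] H →L[ℝ] ℝ :=
  ((ContinuousLinearMap.compL ℝ H E ℝ).flip (fr e)).comp
    (ContinuousAlternatingMap.ofSubsingletonLIE (𝕜 := ℝ) (E := E) (F := ℝ)
      (0 : Fin 1)).symm.toContinuousLinearEquiv.toContinuousLinearMap

theorem pb1_ap (θ : A1) (v : H) : pb1 e θ v = θ ![fr e v] := by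
  show θ _ = _
  congr 1
  funext i
  fin_cases i
  simp

/-- the primitive seen from a point -/
def loc (L : E → A1) (x : E) (y : H) : H →L[ℝ] ℝ := pb1 e (L (x + fr e y))

theorem sm_loc {L : E → A1} (hL : ContDiff ℝ ∞ L) (x : E) : ContDiff ℝ ∞ (loc e L x) := by
  have h1 : ContDiff ℝ ∞ (pb1 e) := ContinuousLinearMap.contDiff (E := A1) (F := H →L[ℝ] ℝ) _
  exact h1.comp (hL.comp (contDiff_const.add (fr e).contDiff))

theorem loc_bd {L : E → A1} {C : ℝ} (hC : ∀ y, ‖L y‖ ≤ C) (x : E) (y : H) :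
    ‖loc e L x y‖ ≤ C * ‖fr e‖ := by
  have h0 : 0 ≤ C := (norm_nonneg _).trans (hC 0)
  refine ContinuousLinearMap.opNorm_le_bound _ (by positivity) fun v => ?_
  rw [loc, pb1_ap]
  refine ((L _).le_opNorm _).trans ?_
  rw [Fin.prod_univ_one, mul_assoc]
  exact mul_le_mul (hC _) ((fr e).le_opNorm v) (norm_nonneg _) h0

theorem om_loc {L : E → A1} (hL : ContDiff ℝ ∞ L) (x : E) (y u v : H) :
    om (fderiv ℝ (loc e L x) y) u v = ev e u v (extDeriv L (x + fr e y)) := by
  have h := HasFDerivAt.comp (F := A1) (G := H →L[ℝ] ℝ) y (pb1 e).hasFDerivAt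
    ((hL.differentiable (by simp) _).hasFDerivAt.comp y ((fr e).hasFDerivAt.const_add x))
  rw [show fderiv ℝ (loc e L x) y = _ from h.fderiv, H13.extDeriv_eq, ev_ap, H13.alt_apply, om,
    ← pb1_ap, ← pb1_ap]
  rfl

theorem sd_loc {L : E → A1} (hL : ContDiff ℝ ∞ L) (x : E) (y : H) (k : Fin 3) :
    sd k (fderiv ℝ (loc e L x) y) = Sd e k (extDeriv L (x + fr e y)) := by
  rw [sd, om_loc e hL, om_loc e hL]; rfl

theorem an_loc {L : E → A1} (hL : ContDiff ℝ ∞ L) (x : E) (y : H) (k : Fin 3) :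
    an k (fderiv ℝ (loc e L x) y) = An e k (extDeriv L (x + fr e y)) := by
  rw [an, om_loc e hL, om_loc e hL]; rfl

section Av

variable {F : Type} [NormedAddCommGroup F] [NormedSpace ℝ F]

/-- average over the ball of radius `r` -/
def av (θ : E → F) (r : ℝ) (x : E) : F :=
  ∫ p in Icc (0 : ℝ) 1 ×ˢ (univ : Set S3), (4 * p.1 ^ 3) • θ (x + fr e ((r * p.1) • (p.2 : H)))
    ∂(volume.prod μS)

theorem cK : IsCompact (Icc (0 : ℝ) 1 ×ˢ (univ : Set S3)) := isCompact_Icc.prod isCompact_univ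

theorem av_int {θ : E → F} (h : Continuous θ) (r : ℝ) (x : E) : IntegrableOn
    (fun p : ℝ × S3 => (4 * p.1 ^ 3) • θ (x + fr e ((r * p.1) • (p.2 : H))))
    (Icc (0 : ℝ) 1 ×ˢ univ) (volume.prod μS) :=
  Continuous.continuousOn (by fun_prop) |>.integrableOn_compact cK

theorem av_smooth {θ : E → F} (h : ContDiff ℝ ∞ θ) :
    ContDiff ℝ ∞ fun z : ℝ × E => av e θ z.1 z.2 :=
  param_smooth (κ := fun p : ℝ × S3 => (p.1, (p.2 : H)))
    (Γ := fun (p : ℝ × H) (z : ℝ × E) => (4 * p.1 ^ 3) • θ (z.2 + fr e ((z.1 * p.1) • p.2))) cK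
    (by fun_prop) (by fun_prop)

theorem av_per {θ : E → F} (h : H13.Per θ) (r : ℝ) : H13.Per (av e θ r) := fun n x => by
  unfold av
  simp only [add_right_comm x (fun i => (n i : ℝ)), h n]

theorem av_fderiv {θ : E → F} (h : ContDiff ℝ ∞ θ) (r : ℝ) (x : E) :
    fderiv ℝ (av e θ r) x = av e (fderiv ℝ θ) r x := by
  refine (param_fderiv' (ν := volume.prod μS) (κ := fun p : ℝ × S3 => (p.1, (p.2 : H)))
    (Γ := fun (p : ℝ × H) (z : E) => (4 * p.1 ^ 3) • θ (z + fr e ((r * p.1) • p.2))) cK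
    (by fun_prop) (by fun_prop) x).fderiv.trans ?_
  unfold av
  congr 1
  funext p
  have h1 := ((h.differentiable (by simp) _).hasFDerivAt.comp x
    ((hasFDerivAt_id x).add_const (fr e ((r * p.1) • (p.2 : H))))).const_smul (4 * p.1 ^ 3)
  exact h1.fderiv.trans (by simp)

variable [CompleteSpace F]

theorem av_clm {G : Type} [NormedAddCommGroup G] [NormedSpace ℝ G] [CompleteSpace G]
    (L : F →L[ℝ] G) {θ : E → F} (h : Continuous θ) (r : ℝ) (x : E) :
    L (av e θ r x) = av e (fun y => L (θ y)) r x := by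
  unfold av
  rw [← L.integral_comp_comm (av_int e h r x)]
  simp only [map_smul]

theorem av_const (a : F) (r : ℝ) (x : E) : av e (fun _ => a) r x = a := by
  rw [av, setIntegral_prod _ (av_int e continuous_const r x)]
  simp only [Measure.restrict_univ, integral_const, probReal_univ, one_smul]
  rw [integral_smul_const, integral_Icc_eq_integral_Ioc,
    ← intervalIntegral.integral_of_le zero_le_one, intervalIntegral.integral_const_mul,
    integral_pow]
  norm_num

theorem av_zero (θ : E → F) (x : E) : av e θ 0 x = θ x := by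
  rw [← av_const e (θ x) 0 x]
  simp [av]

theorem av_add (a : F) {θ : E → F} (h : Continuous θ) (r : ℝ) (x : E) :
    av e (fun y => a + θ y) r x = a + av e θ r x := by
  conv_rhs => rw [← av_const e a r x]
  unfold av
  rw [← integral_add (av_int e continuous_const r x) (av_int e h r x)]
  simp only [smul_add]

theorem av_real {w : E → ℝ} (h : Continuous w) (r : ℝ) (x : E) : av e w r x =
    4 * ∫ s in (0 : ℝ)..1, s ^ 3 * I fun y => w (x + fr e ((r * s) • y)) := by
  rw [av, setIntegral_prod _ (av_int e h r x), integral_Icc_eq_integral_Ioc,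
    ← intervalIntegral.integral_of_le zero_le_one, ← intervalIntegral.integral_const_mul]
  simp only [Measure.restrict_univ, smul_eq_mul, integral_const_mul, I, mul_assoc]

end Av

theorem ct_d {L : E → A1} (hL : ContDiff ℝ ∞ L) : Continuous (extDeriv L) :=
  H13.alt.continuous.comp (hL.continuous_fderiv (by simp))

theorem Sd_av {L : E → A1} (hL : ContDiff ℝ ∞ L) (r : ℝ) (x : E) (k : Fin 3) :
    Sd e k (av e (extDeriv L) r x) = 4 * M (sd k) (loc e L x) r := by
  rw [av_clm e _ (ct_d hL), av_real e (w := fun y => Sd e k (extDeriv L y))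
    ((Sd e k).continuous.comp (ct_d hL)), M]
  simp only [sd_loc e hL]

theorem An_av {L : E → A1} (hL : ContDiff ℝ ∞ L) (r : ℝ) (x : E) (k : Fin 3) :
    An e k (av e (extDeriv L) r x) = 4 * M (an k) (loc e L x) r := by
  rw [av_clm e _ (ct_d hL), av_real e (w := fun y => An e k (extDeriv L y))
    ((An e k).continuous.comp (ct_d hL)), M]
  simp only [an_loc e hL]

theorem near_const (he : LinearIndependent ℝ e) {a : A2} (ha : Nd a) : ∃ δ > 0, ∀ η : A2,
    Sd e 0 η ^ 2 + Sd e 1 η ^ 2 + Sd e 2 η ^ 2 + (An e 0 η ^ 2 + An e 1 η ^ 2 + An e 2 η ^ 2) <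
      δ ^ 2 → Nd (a + η) := by
  have hc : Continuous fun z : (Fin 3 → ℝ) × (Fin 3 → ℝ) =>
      (Sd e 0 a + z.1 0) ^ 2 + (Sd e 1 a + z.1 1) ^ 2 + (Sd e 2 a + z.1 2) ^ 2 -
        ((An e 0 a + z.2 0) ^ 2 + (An e 1 a + z.2 1) ^ 2 + (An e 2 a + z.2 2) ^ 2) := by fun_prop
  obtain ⟨δ, hδ, h⟩ := Metric.eventually_nhds_iff.1 ((hc.continuousAt (x := 0)).eventually_ne
    (y := 0) (by simpa using sub_ne_zero.2 ((Nd_iff e he a).1 ha)))
  refine ⟨δ, hδ, fun η hη => (Nd_iff e he _).2 (sub_ne_zero.1 ?_)⟩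
  simp only [map_add]
  refine h (y := (fun k => Sd e k η, fun k => An e k η)) ?_
  have s := fun k => sq_nonneg (Sd e k η)
  have t := fun k => sq_nonneg (An e k η)
  rw [dist_zero_right, Prod.norm_def, max_lt_iff, pi_norm_lt_iff hδ, pi_norm_lt_iff hδ]
  exact ⟨fin3 (abs_lt_of_sq_lt_sq (by linarith [s 0, s 1, s 2, t 0, t 1, t 2]) hδ.le)
      (abs_lt_of_sq_lt_sq (by linarith [s 0, s 1, s 2, t 0, t 1, t 2]) hδ.le)
      (abs_lt_of_sq_lt_sq (by linarith [s 0, s 1, s 2, t 0, t 1, t 2]) hδ.le),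
    fin3 (abs_lt_of_sq_lt_sq (by linarith [s 0, s 1, s 2, t 0, t 1, t 2]) hδ.le)
      (abs_lt_of_sq_lt_sq (by linarith [s 0, s 1, s 2, t 0, t 1, t 2]) hδ.le)
      (abs_lt_of_sq_lt_sq (by linarith [s 0, s 1, s 2, t 0, t 1, t 2]) hδ.le)⟩

theorem pinched_rel {a : A2} {σ : E → A2} (h : Sy a σ) (hp : Pinched σ) : Rel a σ fun _ => a := by
  obtain ⟨e, he, hp⟩ := hp
  have hσ := h.1.isForm
  obtain ⟨l, hl, hd⟩ := h.1
  have e1 : σ = fun y => a + extDeriv l y := funext hd
  have e2 : ∀ r x, av e σ r x = a + av e (extDeriv l) r x := fun r x => by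
    rw [e1, av_add e a (ct_d hl.1)]
  have hx : ∀ r, Ex a (av e σ r) := fun r => by
    refine ⟨av e l r, ⟨(av_smooth e hl.1).comp (f := fun x : E => (r, x)) (by fun_prop),
      av_per e hl.2 r⟩, fun x => ?_⟩
    rw [e2, H13.extDeriv_eq, av_fderiv e hl.1, av_clm e _ (hl.1.continuous_fderiv (by simp))]
    rfl
  obtain ⟨C, -, hC⟩ := H13.bdd (Φ := fun (_ : ℝ) => σ) (hσ.1.continuous.comp continuous_snd)
    (fun _ => hσ.2) (isCompact_singleton (x := 0))
  obtain ⟨C', -, hC'⟩ := H13.bdd (Φ := fun (_ : ℝ) => l) (hl.1.continuous.comp continuous_snd)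
    (fun _ => hl.2) (isCompact_singleton (x := 0))
  let L : E → A1 := fun y => l y + ((1 / 2 : ℝ) • a.curryLeft) y
  have hL : ContDiff ℝ ∞ L := hl.1.add (ContinuousLinearMap.contDiff _)
  have dL : extDeriv L = σ := funext fun y => by
    rw [H13.extDeriv_eq, show fderiv ℝ L y = _ from
      ((hl.diff y).hasFDerivAt.add (ContinuousLinearMap.hasFDerivAt _)).fderiv, map_add, hd,
      add_comm (H13.alt _), ← H13.extDeriv_eq]
    congr 1
    ext m
    rw [show m = ![m 0, m 1] by funext i; fin_cases i <;> rfl, H13.alt_apply]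
    simp only [smul_apply, ContinuousAlternatingMap.smul_apply,
      ContinuousAlternatingMap.curryLeft_apply_apply, smul_eq_mul]
    linarith [A2_swap a (m 0) (m 1)]
  have hN : ∀ r, 0 ≤ r → ∀ x, Nd (av e σ r x) := fun r hr x => by
    rcases hr.eq_or_lt with rfl | hr
    · rw [av_zero]; exact h.2 x
    have h1 := avg_nd (sm_loc e hL x) (K := C * ‖fr e‖ ^ 2) (fun y u v => by
        rw [om_loc e hL, dL, ev_ap]
        refine ((σ _).le_opNorm _).trans ?_
        rw [Fin.prod_univ_two]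
        refine (mul_le_mul (hC 0 rfl _) (mul_le_mul ((fr e).le_opNorm u) ((fr e).le_opNorm v)
          (norm_nonneg _) (by positivity)) (by positivity)
          ((norm_nonneg _).trans (hC 0 rfl 0))).trans_eq (by ring))
      (fun y => by
        have h2 := hp (x + fr e y)
        simp only [sd_loc e hL, an_loc e hL, dL, Sd, An, add_apply, sub_apply, ev_ap, Fin.reduceAdd,
          fr_1, fr_q0, fr_q1, fr_q2, A2_swap _ (e 3) (e 1)]
        linarith)
      (fun y => by
        simp only [sd_loc e hL, an_loc e hL, dL]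
        exact (Nd_iff e he _).1 (h.2 _)) hr
    rw [Nd_iff e he, ← dL]
    simp only [Sd_av e hL, An_av e hL]
    linarith
  obtain ⟨δ, hδ, hδ'⟩ := near_const e he (H13.Nd_cls h)
  obtain ⟨R, hR, hR'⟩ : ∃ R : ℝ, 0 < R ∧ 48 * (C' * ‖fr e‖) ^ 2 < δ ^ 2 * R ^ 2 := by
    refine ⟨(7 * |C' * ‖fr e‖| + 1) / δ, by positivity, ?_⟩
    rw [← mul_pow, mul_div_cancel₀ _ hδ.ne', ← sq_abs]
    nlinarith [abs_nonneg (C' * ‖fr e‖)]
  have p1 := H13.pth_of_cont (av_smooth e hσ.1).continuous hx hR.le fun r hr => hN r hr.1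
  have p2 := H13.Pth.seg (Ex_const a) (hx R) fun s hs x => hδ' _ (by
    have h1 := avg_bd (sm_loc e hl.1 x) (loc_bd e (hC' 0 rfl) x) hR
    simp only [e2, add_sub_cancel_left, map_smul, smul_eq_mul, Sd_av e hl.1, An_av e hl.1]
    set m := M (sd 0) (loc e l x) R ^ 2 + M (sd 1) (loc e l x) R ^ 2 + M (sd 2) (loc e l x) R ^ 2 +
      (M (an 0) (loc e l x) R ^ 2 + M (an 1) (loc e l x) R ^ 2 + M (an 2) (loc e l x) R ^ 2) with hm
    have h2 : 16 * m < δ ^ 2 := lt_of_mul_lt_mul_right (by linarith) (sq_nonneg R)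
    have h3 : s ^ 2 * m ≤ m := mul_le_of_le_one_left (by positivity) (pow_le_one₀ hs.1 hs.2)
    calc _ = 16 * (s ^ 2 * m) := by rw [hm]; ring
      _ < _ := by linarith)
  rw [show av e σ 0 = σ from funext (av_zero e σ)] at p1
  exact (p1.trans p2.symm).rel

end

end Pool.Agent.MP_be5fd0_gt.H22
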