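import Mathlib

/-! Calculus on the unit sphere of the quaternions: Haar integral, invariant vector fields. -/

namespace Pool.Agent.MP_be5fd0_gt.H22

open Set Filter Topology Metric MeasureTheory
open scoped ContDiff

noncomputable section

section Param

variable {Y : Type} [TopologicalSpace Y] [T2Space Y] [MeasurableSpace Y] [BorelSpace Y]
  {ν : Measure Y} [IsFiniteMeasureOnCompacts ν] {K : Set Y}
  {V : Type} [NormedAddCommGroup V] [NormedSpace ℝ V] [ProperSpace V]

theorem param_fderiv (hK : IsCompact K) {F : Type} [NormedAddCommGroup F] [NormedSpace ℝ F]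
    {G : Y → V → F} {G' : Y → V → V →L[ℝ] F} (hG : Continuous fun p : Y × V => G p.1 p.2)
    (hG' : Continuous fun p : Y × V => G' p.1 p.2) (hd : ∀ y v, HasFDerivAt (G y) (G' y v) v)
    (v₀ : V) : HasFDerivAt (fun v => ∫ y in K, G y v ∂ν) (∫ y in K, G' y v₀ ∂ν) v₀ := by
  obtain ⟨C, hC⟩ := (hK.prod (isCompact_closedBall v₀ 1)).exists_bound_of_continuousOn
    hG'.continuousOn
  have c1 : ∀ v, Continuous fun y => G y v := fun v =>
    hG.comp (f := fun y : Y => (y, v)) (by fun_prop)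
  have c2 : ∀ v, Continuous fun y => G' y v := fun v =>
    hG'.comp (f := fun y : Y => (y, v)) (by fun_prop)
  refine hasFDerivAt_integral_of_dominated_of_fderiv_le (μ := ν.restrict K)
    (F := fun v y => G y v) (F' := fun v y => G' y v) (bound := fun _ => C)
    (closedBall_mem_nhds v₀ one_pos) (Eventually.of_forall fun v =>
      ((c1 v).continuousOn.integrableOn_compact hK).aestronglyMeasurable)
    ((c1 v₀).continuousOn.integrableOn_compact hK)
    ((c2 v₀).continuousOn.integrableOn_compact hK).aestronglyMeasurable ?_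
    (continuousOn_const.integrableOn_compact hK) (Eventually.of_forall fun y v _ => hd y v)
  filter_upwards [ae_restrict_mem hK.measurableSet] with y hy v hv
  exact hC (y, v) ⟨hy, hv⟩

variable {P : Type} [NormedAddCommGroup P] [NormedSpace ℝ P] {κ : Y → P}

omit [ProperSpace V] in
theorem smooth_d2 {F : Type} [NormedAddCommGroup F] [NormedSpace ℝ F] {Γ : P → V → F}
    (h : ContDiff ℝ ∞ fun p : P × V => Γ p.1 p.2) :
    ContDiff ℝ ∞ fun p : P × V => fderiv ℝ (Γ p.1) p.2 :=
  ContDiff.fderiv (f := fun (p : P × V) (y : V) => Γ p.1 y) (g := fun p => p.2) (m := ∞)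
    (h.comp (f := fun q : (P × V) × V => (q.1.1, q.2)) (by fun_prop)) contDiff_snd le_rfl

theorem param_fderiv' (hK : IsCompact K) (hκ : Continuous κ) {F : Type} [NormedAddCommGroup F]
    [NormedSpace ℝ F] {Γ : P → V → F} (h : ContDiff ℝ ∞ fun p : P × V => Γ p.1 p.2) (v₀ : V) :
    HasFDerivAt (fun v => ∫ y in K, Γ (κ y) v ∂ν) (∫ y in K, fderiv ℝ (Γ (κ y)) v₀ ∂ν) v₀ :=
  param_fderiv hK (G := fun y => Γ (κ y)) (G' := fun y v => fderiv ℝ (Γ (κ y)) v)
    (h.continuous.comp (f := fun p : Y × V => (κ p.1, p.2)) (by fun_prop))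
    ((smooth_d2 h).continuous.comp (f := fun p : Y × V => (κ p.1, p.2)) (by fun_prop))
    (fun y v => (((h.comp (f := fun v : V => (κ y, v)) (by fun_prop)).differentiable
      (by simp)) v).hasFDerivAt) v₀

theorem param_smooth_nat (hK : IsCompact K) (hκ : Continuous κ) (n : ℕ) :
    ∀ {F : Type} [NormedAddCommGroup F] [NormedSpace ℝ F] {Γ : P → V → F},
      (ContDiff ℝ ∞ fun p : P × V => Γ p.1 p.2) →
      ContDiff ℝ n fun v => ∫ y in K, Γ (κ y) v ∂ν := by
  induction n with
  | zero =>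
    intro F _ _ Γ h
    rw [Nat.cast_zero, contDiff_zero]
    exact continuous_iff_continuousAt.2 fun v => (param_fderiv' hK hκ h v).continuousAt
  | succ n ih =>
    intro F _ _ Γ h
    rw [Nat.cast_succ, contDiff_succ_iff_fderiv]
    refine ⟨fun v => (param_fderiv' hK hκ h v).differentiableAt, by simp, ?_⟩
    rw [show fderiv ℝ (fun v => ∫ y in K, Γ (κ y) v ∂ν) = _ from
      funext fun v => (param_fderiv' hK hκ h v).fderiv]
    exact ih (Γ := fun p v => fderiv ℝ (Γ p) v) (smooth_d2 h)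

theorem param_smooth (hK : IsCompact K) (hκ : Continuous κ) {F : Type} [NormedAddCommGroup F]
    [NormedSpace ℝ F] {Γ : P → V → F} (h : ContDiff ℝ ∞ fun p : P × V => Γ p.1 p.2) :
    ContDiff ℝ ∞ fun v => ∫ y in K, Γ (κ y) v ∂ν :=
  contDiff_infty.2 fun n => param_smooth_nat hK hκ n h

end Param

abbrev H := Quaternion ℝ
abbrev S3 := sphere (0 : H) 1

@[simp] theorem one_re : (1 : H).re = 1 := rfl
@[simp] theorem one_imI : (1 : H).imI = 0 := rfl
@[simp] theorem one_imJ : (1 : H).imJ = 0 := rfl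
@[simp] theorem one_imK : (1 : H).imK = 0 := rfl

instance : MeasurableSpace S3 := borel _
instance : BorelSpace S3 := ⟨rfl⟩
instance : ProperSpace H := FiniteDimensional.proper ℝ H
instance : CompactSpace S3 := isCompact_iff_compactSpace.1 (isCompact_sphere _ _)

/-- Haar probability measure of the unit quaternions -/
def μS : Measure S3 := Measure.haarMeasure ⊤

instance : μS.IsHaarMeasure := by unfold μS; infer_instance

instance : IsProbabilityMeasure μS := ⟨by
  have := Measure.haarMeasure_self (G := S3) (K₀ := ⊤)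
  rwa [TopologicalSpace.PositiveCompacts.coe_top] at this⟩

/-- the mean over the sphere -/
def I (u : H → ℝ) : ℝ := ∫ x : S3, u x ∂μS

theorem intS {F : Type} [NormedAddCommGroup F] {u : S3 → F} (h : Continuous u) :
    Integrable u μS := h.integrable_of_hasCompactSupport (HasCompactSupport.of_compactSpace _)

theorem intH {u : H → ℝ} (h : Continuous u) : Integrable (fun x : S3 => u x) μS :=
  intS (h.comp continuous_subtype_val)

theorem I_add {u v : H → ℝ} (hu : Continuous u) (hv : Continuous v) :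
    I (fun x => u x + v x) = I u + I v := integral_add (intH hu) (intH hv)

theorem I_sub {u v : H → ℝ} (hu : Continuous u) (hv : Continuous v) :
    I (fun x => u x - v x) = I u - I v := integral_sub (intH hu) (intH hv)

theorem I_mul (c : ℝ) (u : H → ℝ) : I (fun x => c * u x) = c * I u := integral_const_mul _ _

theorem I_const (c : ℝ) : I (fun _ => c) = c := by simp [I]

theorem I_congr {u v : H → ℝ} (h : ∀ x, ‖x‖ = 1 → u x = v x) : I u = I v := by
  unfold I
  congr 1
  funext x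
  exact h x (norm_eq_of_mem_sphere x)

theorem I_mono {u v : H → ℝ} (hu : Continuous u) (hv : Continuous v)
    (h : ∀ x, ‖x‖ = 1 → u x ≤ v x) : I u ≤ I v :=
  integral_mono (intH hu) (intH hv) fun x => h x (norm_eq_of_mem_sphere x)

theorem I_nonneg {u : H → ℝ} (h : ∀ x, 0 ≤ u x) : 0 ≤ I u := integral_nonneg fun x => h x

theorem I_eq_zero {u : H → ℝ} (hu : Continuous u) (h : ∀ x, 0 ≤ u x) (h0 : I u = 0) {x : H}
    (hx : ‖x‖ = 1) : u x = 0 := by
  have h1 := (integral_eq_zero_iff_of_nonneg (fun x : S3 => h x) (intH hu)).1 h0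
  have h2 := (Continuous.ae_eq_iff_eq μS (hu.comp continuous_subtype_val) continuous_const).1 h1
  exact congrFun h2 ⟨x, mem_sphere_zero_iff_norm.2 hx⟩

theorem abs_I_le {u : H → ℝ} {C : ℝ} (h : ∀ x, ‖x‖ = 1 → |u x| ≤ C) : |I u| ≤ C := by
  have := norm_integral_le_of_norm_le_const (μ := μS) (f := fun x : S3 => u x) (C := C)
    (Eventually.of_forall fun x => h x (norm_eq_of_mem_sphere x))
  simpa [I] using this

theorem I_left (u : H → ℝ) {g : H} (hg : ‖g‖ = 1) : I (fun x => u (g * x)) = I u :=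
  integral_mul_left_eq_self (μ := μS) (fun x : S3 => u x) ⟨g, mem_sphere_zero_iff_norm.2 hg⟩

theorem hasDerivAt_I {Γ : H → ℝ → ℝ} (h : ContDiff ℝ ∞ fun p : H × ℝ => Γ p.1 p.2) (t : ℝ) :
    HasDerivAt (fun s => I fun x => Γ x s) (I fun x => deriv (Γ x) t) t := by
  have h1 := (param_fderiv' (ν := μS) (K := univ) (κ := fun x : S3 => (x : H)) isCompact_univ
    continuous_subtype_val h t).hasDerivAt
  simp only [Measure.restrict_univ] at h1
  rw [ContinuousLinearMap.integral_apply] at h1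
  · exact h1
  · exact intS ((smooth_d2 h).continuous.comp (f := fun x : S3 => ((x : H), t)) (by fun_prop))

/-- derivative along the field `x ↦ a * x` -/
def X (a : H) (u : H → ℝ) (x : H) : ℝ := fderiv ℝ u x (a * x)

/-- smooth functions -/
abbrev Sm (u : H → ℝ) : Prop := ContDiff ℝ ∞ u

theorem Sm.df {u : H → ℝ} (h : Sm u) (x : H) : DifferentiableAt ℝ u x :=
  h.differentiable (by simp) x

theorem Sm.X {u : H → ℝ} (h : Sm u) (a : H) : Sm (X a u) :=
  (h.fderiv_right (m := ∞) le_rfl).clm_apply (contDiff_const.mul contDiff_id)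

theorem X_add {u v : H → ℝ} (hu : Sm u) (hv : Sm v) (a x : H) :
    X a (fun y => u y + v y) x = X a u x + X a v x := by
  unfold X
  rw [fderiv_fun_add (hu.df x) (hv.df x)]; rfl

theorem X_sub {u v : H → ℝ} (hu : Sm u) (hv : Sm v) (a x : H) :
    X a (fun y => u y - v y) x = X a u x - X a v x := by
  unfold X
  rw [fderiv_fun_sub (hu.df x) (hv.df x)]; rfl

theorem X_mul {u v : H → ℝ} (hu : Sm u) (hv : Sm v) (a x : H) :
    X a (fun y => u y * v y) x = X a u x * v x + u x * X a v x := by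
  unfold X
  rw [fderiv_fun_mul (hu.df x) (hv.df x)]
  simp; ring

theorem X_const (c : ℝ) (a x : H) : X a (fun _ => c) x = 0 := by simp [X]

theorem X_cmul (c : ℝ) {u : H → ℝ} (hu : Sm u) (a x : H) :
    X a (fun y => c * u y) x = c * X a u x := by
  rw [X_mul contDiff_const hu, X_const]; ring

theorem X_clm (L : H →L[ℝ] ℝ) (a x : H) : X a L x = L (a * x) := by simp [X]

theorem X_comm {u : H → ℝ} (hu : Sm u) (a b x : H) :
    X a (X b u) x - X b (X a u) x = X (b * a - a * b) u x := by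
  have hd : DifferentiableAt ℝ (fderiv ℝ u) x :=
    (hu.fderiv_right (m := ∞) le_rfl).differentiable (by simp) x
  have key : ∀ a b : H, X a (X b u) x =
      fderiv ℝ (fderiv ℝ u) x (a * x) (b * x) + fderiv ℝ u x (b * (a * x)) := fun a b => by
    have h1 : HasFDerivAt (fun y : H => b * y) (ContinuousLinearMap.mul ℝ H b) x :=
      (ContinuousLinearMap.mul ℝ H b).hasFDerivAt
    have h2 := (hd.hasFDerivAt.clm_apply h1).fderiv
    unfold X
    rw [h2]
    simp [add_comm]
  have hs := (hu.contDiffAt (x := x)).isSymmSndFDerivAt (by simp; norm_cast)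
  rw [key, key, hs.eq (a * x) (b * x), X, sub_mul, map_sub, mul_assoc, mul_assoc]
  ring

/-- the one-parameter group of a unit imaginary quaternion -/
def ex (a : H) (s : ℝ) : H := Real.cos s • (1 : H) + Real.sin s • a

theorem ex_zero (a : H) : ex a 0 = 1 := by simp [ex]

theorem norm_ex {a : H} (h0 : a.re = 0) (h1 : ‖a‖ = 1) (s : ℝ) : ‖ex a s‖ = 1 := by
  have h2 : Quaternion.normSq a = 1 := by rw [Quaternion.normSq_eq_norm_mul_self, h1, one_mul]
  have h3 : Quaternion.normSq (ex a s) = 1 := by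
    rw [Quaternion.normSq_def'] at h2 ⊢
    simp [ex, h0] at h2 ⊢
    linear_combination Real.cos_sq_add_sin_sq s + Real.sin s ^ 2 * h2
  rw [Quaternion.normSq_eq_norm_mul_self] at h3
  nlinarith [norm_nonneg (ex a s)]

theorem mul_self_im {a : H} (h0 : a.re = 0) (h1 : ‖a‖ = 1) : a * a = -1 := by
  have h2 : Quaternion.normSq a = 1 := by rw [Quaternion.normSq_eq_norm_mul_self, h1, one_mul]
  rw [Quaternion.normSq_def'] at h2
  ext <;> simp [h0] at h2 ⊢ <;> linarith

theorem hasDerivAt_ex {a : H} (h0 : a.re = 0) (h1 : ‖a‖ = 1) {u : H → ℝ} (hu : Sm u) (x : H)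
    (s : ℝ) : HasDerivAt (fun s => u (ex a s * x)) (X a u (ex a s * x)) s := by
  have h2 : HasDerivAt (fun s => ex a s * x) (a * (ex a s * x)) s := by
    have h3 := (((Real.hasDerivAt_cos s).smul_const (1 : H)).add
      ((Real.hasDerivAt_sin s).smul_const a)).mul_const x
    refine h3.congr_deriv ?_
    rw [← mul_assoc, ex, mul_add, mul_smul_comm, mul_smul_comm, mul_self_im h0 h1]
    congr 1
    simp [add_comm]
  exact (hu.df _).hasFDerivAt.comp_hasDerivAt s h2

theorem I_X {a : H} (h0 : a.re = 0) (h1 : ‖a‖ = 1) {u : H → ℝ} (hu : Sm u) : I (X a u) = 0 := by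
  have h2 := hasDerivAt_I (Γ := fun x s => u (ex a s * x))
    (hu.comp (by unfold ex; fun_prop)) 0
  simp only [I_left u (norm_ex h0 h1 _), (hasDerivAt_ex h0 h1 hu _ 0).deriv, ex_zero,
    one_mul] at h2
  exact h2.unique (hasDerivAt_const _ _)

theorem ibp {a : H} (h0 : a.re = 0) (h1 : ‖a‖ = 1) {u v : H → ℝ} (hu : Sm u) (hv : Sm v) :
    I (fun x => X a u x * v x) = -I (fun x => u x * X a v x) := by
  have h := I_X h0 h1 (u := fun y => u y * v y) (hu.mul hv)
  rw [show X a (fun y => u y * v y) = _ from funext (X_mul hu hv a),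
    I_add ((hu.X a).mul hv).continuous (hu.mul (hv.X a)).continuous] at h
  linarith

/-- the imaginary units -/
def q : Fin 3 → H := ![⟨0, 1, 0, 0⟩, ⟨0, 0, 1, 0⟩, ⟨0, 0, 0, 1⟩]

@[simp] theorem q0_re : (q 0).re = 0 := rfl
@[simp] theorem q0_imI : (q 0).imI = 1 := rfl
@[simp] theorem q0_imJ : (q 0).imJ = 0 := rfl
@[simp] theorem q0_imK : (q 0).imK = 0 := rfl
@[simp] theorem q1_re : (q 1).re = 0 := rfl
@[simp] theorem q1_imI : (q 1).imI = 0 := rfl
@[simp] theorem q1_imJ : (q 1).imJ = 1 := rfl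
@[simp] theorem q1_imK : (q 1).imK = 0 := rfl
@[simp] theorem q2_re : (q 2).re = 0 := rfl
@[simp] theorem q2_imI : (q 2).imI = 0 := rfl
@[simp] theorem q2_imJ : (q 2).imJ = 0 := rfl
@[simp] theorem q2_imK : (q 2).imK = 1 := rfl

theorem q_re (i : Fin 3) : (q i).re = 0 := by fin_cases i <;> rfl

theorem norm_q (i : Fin 3) : ‖q i‖ = 1 := by
  have h : Quaternion.normSq (q i) = 1 := by
    fin_cases i <;> simp [Quaternion.normSq_def']
  rw [Quaternion.normSq_eq_norm_mul_self] at h
  nlinarith [norm_nonneg (q i)]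

/-- the invariant frame of the sphere -/
def Z (i : Fin 3) (u : H → ℝ) : H → ℝ := X (q i) u

theorem Sm.Z {u : H → ℝ} (h : Sm u) (i : Fin 3) : Sm (Z i u) := h.X _

theorem X_lin (u : H → ℝ) (c : ℝ) (a x : H) : X (c • a) u x = c * X a u x := by
  simp [X]

theorem Z01 {u : H → ℝ} (hu : Sm u) (x : H) : Z 0 (Z 1 u) x = Z 1 (Z 0 u) x - 2 * Z 2 u x := by
  have h := X_comm hu (q 0) (q 1) x
  rw [show q 1 * q 0 - q 0 * q 1 = (-2 : ℝ) • q 2 by ext <;> simp <;> norm_num, X_lin] at h
  unfold Z; linarith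

theorem Z12 {u : H → ℝ} (hu : Sm u) (x : H) : Z 1 (Z 2 u) x = Z 2 (Z 1 u) x - 2 * Z 0 u x := by
  have h := X_comm hu (q 1) (q 2) x
  rw [show q 2 * q 1 - q 1 * q 2 = (-2 : ℝ) • q 0 by ext <;> simp <;> norm_num, X_lin] at h
  unfold Z; linarith

theorem Z20 {u : H → ℝ} (hu : Sm u) (x : H) : Z 2 (Z 0 u) x = Z 0 (Z 2 u) x - 2 * Z 1 u x := by
  have h := X_comm hu (q 2) (q 0) x
  rw [show q 0 * q 2 - q 2 * q 0 = (-2 : ℝ) • q 1 by ext <;> simp <;> norm_num, X_lin] at h
  unfold Z; linarith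

theorem R_Z {u : H → ℝ} (hu : Sm u) (i : Fin 3) (x : H) : X 1 (Z i u) x = Z i (X 1 u) x := by
  have h := X_comm hu 1 (q i) x
  rw [mul_one, one_mul, sub_self] at h
  have : X 0 u x = 0 := by simp [X]
  unfold Z; linarith

theorem I_Z {u : H → ℝ} (hu : Sm u) (i : Fin 3) : I (Z i u) = 0 := I_X (q_re i) (norm_q i) hu

theorem ibpZ {u v : H → ℝ} (hu : Sm u) (hv : Sm v) (i : Fin 3) :
    I (fun x => Z i u x * v x) = -I (fun x => u x * Z i v x) := ibp (q_re i) (norm_q i) hu hv

theorem const_of_Z {u : H → ℝ} (hu : Sm u) (h : ∀ i x, ‖x‖ = 1 → Z i u x = 0) {x : H}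
    (hx : ‖x‖ = 1) : u x = u 1 := by
  have hX : ∀ a : H, a.re = 0 → ∀ y, ‖y‖ = 1 → X a u y = 0 := fun a ha y hy => by
    have e : a * y = a.imI • (q 0 * y) + a.imJ • (q 1 * y) + a.imK • (q 2 * y) := by
      rw [← smul_mul_assoc, ← smul_mul_assoc, ← smul_mul_assoc, ← add_mul, ← add_mul]
      congr 1
      ext <;> simp [ha]
    have h0 := h 0 y hy
    have h1 := h 1 y hy
    have h2 := h 2 y hy
    unfold Z X at h0 h1 h2
    rw [X, e, map_add, map_add, map_smul, map_smul, map_smul, h0, h1, h2]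
    simp
  have key : ∀ a : H, a.re = 0 → ‖a‖ = 1 → ∀ s, u (ex a s) = u 1 := fun a h0 h1 s => by
    have h2 : ∀ s, HasDerivAt (fun s => u (ex a s * 1)) 0 s := fun s => by
      have := hasDerivAt_ex h0 h1 hu 1 s
      rwa [hX a h0 _ (by rw [mul_one, norm_ex h0 h1])] at this
    have := is_const_of_deriv_eq_zero (fun s => (h2 s).differentiableAt) (fun s => (h2 s).deriv) s 0
    simpa [ex_zero] using this
  have hn : Quaternion.normSq x = 1 := by rw [Quaternion.normSq_eq_norm_mul_self, hx, one_mul]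
  have him : ‖x.im‖ ^ 2 = 1 - x.re ^ 2 := by
    rw [sq, ← Quaternion.normSq_eq_norm_mul_self, Quaternion.normSq_def']
    rw [Quaternion.normSq_def'] at hn
    simp
    linarith
  have hr : x.re ^ 2 ≤ 1 := by nlinarith [sq_nonneg ‖x.im‖]
  have hr' := abs_le.1 ((sq_le_one_iff_abs_le_one _).1 hr)
  have hc := Real.cos_arccos hr'.1 hr'.2
  have hs : Real.sin (Real.arccos x.re) = ‖x.im‖ := by
    rw [Real.sin_arccos, ← him, Real.sqrt_sq (norm_nonneg _)]
  by_cases h0 : x.im = 0
  · rw [← key (q 0) (q_re 0) (norm_q 0) (Real.arccos x.re), ex, hc, hs, h0]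
    congr 1
    rw [← Quaternion.re_add_im x, h0]
    ext <;> simp
  · have hp : ‖x.im‖ ≠ 0 := norm_ne_zero_iff.2 h0
    rw [← key (‖x.im‖⁻¹ • x.im) (by simp) (by rw [norm_smul]; simp [hp]) (Real.arccos x.re), ex,
      hc, hs, smul_smul, mul_inv_cancel₀ hp, one_smul]
    congr 1
    ext <;> simp

end

end Pool.Agent.MP_be5fd0_gt.H22
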